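import Pool.Agent.SYS.Num.Words

/-!
# SYS-BD-FH: first hits of words

`FH s p w`: `w` is a word from `s` which hits `p` at its end for the first time. `pfx a s w` is the shortest prefix of `w` that ends at perimeter `a`.
The perimeter goes up by steps of `1`, so a word from `s ≤ a` to `p ≥ a` visits `a`.
-/

namespace SYS.Num

/-- `w` is a word from `s` that hits `p` at its end for the first time. -/
def FH (s p : ℕ) (w : List Stp) : Prop :=
  WOk s w ∧ wend s w = p ∧ ∀ u, u <+: w → u ≠ w → wend s u ≠ p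

/-- Shortest prefix of `w` that ends at perimeter `a` (if the word visits `a`). -/
def pfx (a : ℕ) : ℕ → List Stp → List Stp
  | _, [] => []
  | s, t :: w => if s = a then [] else t :: pfx a (t.nx s) w

/-- The rest of the word. -/
def sfx (a : ℕ) : ℕ → List Stp → List Stp
  | _, [] => []
  | s, t :: w => if s = a then t :: w else sfx a (t.nx s) w

theorem pfx_sfx (a s : ℕ) (w : List Stp) : pfx a s w ++ sfx a s w = w := by
  induction w generalizing s with
  | nil => rfl
  | cons t w ih =>
    show (if s = a then [] else t :: pfx a (t.nx s) w) ++ (if s = a then t :: w else sfx a (t.nx s) w) = t :: w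
    split_ifs
    · rfl
    · rw [List.cons_append, ih]

private theorem fh_nil {s p : ℕ} : FH s p [] ↔ s = p := by
  constructor
  · exact fun h => h.2.1
  · intro h
    refine ⟨trivial, h, ?_⟩
    intro u hu hn
    exact (hn (List.prefix_nil.1 hu)).elim

private theorem fh_cons {s p : ℕ} {t : Stp} {w : List Stp} :
    FH s p (t :: w) ↔ s ≠ p ∧ t.Ok s ∧ FH (t.nx s) p w := by
  constructor
  · rintro ⟨h1, h2, h3⟩
    refine ⟨h3 [] List.nil_prefix (List.cons_ne_nil t w).symm, h1.1, h1.2, h2, ?_⟩
    intro u hu hn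
    have h4 := h3 (t :: u) (List.prefix_cons_inj t |>.2 hu) (fun h => hn (List.cons.inj h).2)
    exact h4
  · rintro ⟨h1, h2, h3, h4, h5⟩
    refine ⟨⟨h2, h3⟩, h4, ?_⟩
    intro u hu hn
    cases u with
    | nil => exact h1
    | cons t' u =>
      obtain ⟨h6, h7⟩ := List.cons_prefix_cons.1 hu
      rw [h6] at hn ⊢
      exact h5 u h7 (fun h => hn (by rw [h]))

private theorem fh_nx_le (s : ℕ) (t : Stp) : t.nx s ≤ s + 1 := by
  cases t with
  | T => exact le_rfl
  | L k a => show s - (k + 2) ≤ s + 1; omega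
  | R k a => show s - (k + 2) ≤ s + 1; omega

theorem FH_pfx {s a p : ℕ} {w : List Stp} (h : FH s p w) (hs : s ≤ a) (ha : a ≤ p) :
    FH s a (pfx a s w) ∧ FH a p (sfx a s w) := by
  induction w generalizing s with
  | nil =>
    have h1 := fh_nil.1 h
    have h2 : s = a := by omega
    have h3 : a = p := by omega
    exact ⟨fh_nil.2 h2, fh_nil.2 h3⟩
  | cons t w ih =>
    have e1 : pfx a s (t :: w) = if s = a then [] else t :: pfx a (t.nx s) w := rfl
    have e2 : sfx a s (t :: w) = if s = a then t :: w else sfx a (t.nx s) w := rfl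
    by_cases h1 : s = a
    · rw [e1, e2, if_pos h1, if_pos h1]
      refine ⟨fh_nil.2 h1, ?_⟩
      rw [← h1]
      exact h
    · rw [e1, e2, if_neg h1, if_neg h1]
      have h2 := fh_cons.1 h
      have h3 := fh_nx_le s t
      obtain ⟨h4, h5⟩ := ih h2.2.2 (by omega)
      exact ⟨fh_cons.2 ⟨h1, h2.2.1, h4⟩, h5⟩


theorem FH_eq {s p : ℕ} {u w : List Stp} (hu : FH s p u) (hw : FH s p w) (h : u <+: w) : u = w := by
  by_contra h1
  exact hw.2.2 u h h1 hu.2.1

/-- A word that visits `a` is cut at the first visit. -/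
theorem pfx_unique {s a : ℕ} {u v : List Stp} (hu : FH s a u) : pfx a s (u ++ v) = u := by
  induction u generalizing s with
  | nil =>
    have h1 := fh_nil.1 hu
    rw [List.nil_append]
    cases v with
    | nil => rfl
    | cons t v =>
      show (if s = a then [] else t :: pfx a (t.nx s) v) = []
      rw [if_pos h1]
  | cons t u ih =>
    have h1 := fh_cons.1 hu
    show (if s = a then [] else t :: pfx a (t.nx s) (u ++ v)) = t :: u
    rw [if_neg h1.1, ih h1.2.2]

private theorem fh_shift1 {s : ℕ} {t : Stp} (d : ℕ) (h : t.Ok s) :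
    t.Ok (s + d) ∧ t.nx (s + d) = t.nx s + d := by
  cases t with
  | T => exact ⟨trivial, by show s + d + 1 = s + 1 + d; omega⟩
  | L k a =>
    have h' : k + 3 ≤ s := h
    exact ⟨by show k + 3 ≤ s + d; omega, by show s + d - (k + 2) = s - (k + 2) + d; omega⟩
  | R k a =>
    have h' : k + 3 ≤ s := h
    exact ⟨by show k + 3 ≤ s + d; omega, by show s + d - (k + 2) = s - (k + 2) + d; omega⟩

theorem WOk_shift {s : ℕ} {w : List Stp} (d : ℕ) (h : WOk s w) :
    WOk (s + d) w ∧ wend (s + d) w = wend s w + d := by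
  induction w generalizing s with
  | nil => exact ⟨trivial, rfl⟩
  | cons t w ih =>
    obtain ⟨h1, h2⟩ := fh_shift1 d h.1
    obtain ⟨h3, h4⟩ := ih h.2
    rw [WOk_cons, wend_cons, wend_cons, h2]
    exact ⟨⟨h1, h3⟩, h4⟩

theorem FH_shift {s p : ℕ} {w : List Stp} (d : ℕ) (h : FH s p w) : FH (s + d) (p + d) w := by
  obtain ⟨h1, h2, h3⟩ := h
  refine ⟨(WOk_shift d h1).1, by rw [(WOk_shift d h1).2, h2], ?_⟩
  intro u hu hn
  have h4 := h3 u hu hn
  obtain ⟨v, rfl⟩ := hu
  rw [(WOk_shift d ((WOk_append s u v).1 h1).1).2]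
  omega

end SYS.Num
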