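import Pool.Agent.SYS.BD.Hist
import Pool.Agent.SYS.BD.FH

/-!
# SYS-BD-CollC: two fresh sources -> one hole and a self collision (2.9 (a))
-/

namespace SYS.Num

open Classical

private theorem collC_word {s₁ s₂ a b : ℕ} {u v : List Stp} (hu : FH s₁ a u) (hv : FH s₂ b v) :
    WOk (s₁ + s₂ + 2) (u ++ v) ∧ wend (s₁ + s₂ + 2) (u ++ v) = a + b + 2 ∧
      pfx (a + (s₂ + 2)) (s₁ + s₂ + 2) (u ++ v) = u := by
  have f1 := FH_shift (s₂ + 2) hu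
  have f2 := FH_shift (a + 2) hv
  have e1 : s₁ + (s₂ + 2) = s₁ + s₂ + 2 := by omega
  have e2 : s₂ + (a + 2) = a + (s₂ + 2) := by omega
  rw [e1] at f1
  rw [e2] at f2
  refine ⟨?_, ?_, pfx_unique f1⟩
  · rw [WOk_append]
    refine ⟨f1.1, ?_⟩
    rw [f1.2.1]
    exact f2.1
  · rw [wend_append, f1.2.1, f2.2.1]
    omega

private theorem collC_NS (P F g : ℕ) (x : ℝ) :
    x * NS P 0 F (g + 1) = ∑ ab ∈ Finset.HasAntidiagonal.antidiagonal (P - 2), x * muG {ab.1, ab.2} F g := by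
  unfold NS
  rw [if_neg (Nat.succ_ne_zero g), Finset.mul_sum]
  rfl

theorem coll_two (s₁ s₂ p F g : ℕ) (h1 : 1 ≤ s₁) (h2 : 1 ≤ s₂) (U V : ℕ → Finset (List Stp))
    (hU : ∀ a, ∀ u ∈ U a, FH s₁ a u) (hV : ∀ b, ∀ v ∈ V b, FH s₂ b v) :
    (∑ a ∈ Finset.Icc s₁ p, ∑ b ∈ Finset.Icc s₂ p, ∑ u ∈ U a, ∑ v ∈ V b,
      if wvol u + wvol v ≤ F then wwt 1 W u * wwt 1 W v * muG {a, b} (F - wvol u - wvol v) g
        else 0) ≤ muG {s₁ + s₂ + 2} F (g + 1) := by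
  obtain ⟨T, hT⟩ : ∃ T : ℕ × ℕ → Finset (List Stp), T = fun ab =>
      ((U ab.1 ×ˢ V ab.2).filter (fun y => wvol y.1 + wvol y.2 ≤ F)).image
        (fun y => y.1 ++ y.2) := ⟨_, rfl⟩
  obtain ⟨S, hS⟩ : ∃ S : Finset (List Stp),
      S = (Finset.Icc s₁ p ×ˢ Finset.Icc s₂ p).biUnion T := ⟨_, rfl⟩
  have hTm : ∀ ab : ℕ × ℕ, ∀ w ∈ T ab, WOk (s₁ + s₂ + 2) w ∧ wvol w ≤ F ∧
      wend (s₁ + s₂ + 2) w = ab.1 + ab.2 + 2 := by
    intro ab w hw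
    rw [hT] at hw
    obtain ⟨y, hy, rfl⟩ := Finset.mem_image.1 hw
    obtain ⟨hy1, hy2⟩ := Finset.mem_filter.1 hy
    obtain ⟨hu, hv⟩ := Finset.mem_product.1 hy1
    obtain ⟨k1, k2, _⟩ := collC_word (hU _ _ hu) (hV _ _ hv)
    refine ⟨k1, ?_, k2⟩
    rw [wvol_append]
    exact hy2
  have hSm : ∀ w ∈ S, WOk (s₁ + s₂ + 2) w ∧ wvol w ≤ F := by
    intro w hw
    rw [hS] at hw
    obtain ⟨ab, _, h⟩ := Finset.mem_biUnion.1 hw
    exact ⟨(hTm ab w h).1, (hTm ab w h).2.1⟩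
  have hG0 : ∀ (x : List Stp) (ab : ℕ × ℕ), 0 ≤ wwt 1 W x * muG {ab.1, ab.2} (F - wvol x) g :=
    fun x ab => mul_nonneg (wwt_nonneg zero_le_one W_nonneg x) (muG_nonneg _ _ _)
  have hA : ∀ ab ∈ Finset.Icc s₁ p ×ˢ Finset.Icc s₂ p, (∑ u ∈ U ab.1, ∑ v ∈ V ab.2,
      if wvol u + wvol v ≤ F then wwt 1 W u * wwt 1 W v * muG {ab.1, ab.2} (F - wvol u - wvol v) g
        else 0) ≤ ∑ x ∈ S, if wend (s₁ + s₂ + 2) x = ab.1 + ab.2 + 2 then
          wwt 1 W x * muG {ab.1, ab.2} (F - wvol x) g else 0 := by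
    intro ab hab
    rw [← Finset.sum_product' (U ab.1) (V ab.2) (fun u v => if wvol u + wvol v ≤ F then
      wwt 1 W u * wwt 1 W v * muG {ab.1, ab.2} (F - wvol u - wvol v) g else 0),
      ← Finset.sum_filter, ← Finset.sum_filter]
    have e1 : ∑ y ∈ (U ab.1 ×ˢ V ab.2).filter (fun y => wvol y.1 + wvol y.2 ≤ F),
        wwt 1 W y.1 * wwt 1 W y.2 * muG {ab.1, ab.2} (F - wvol y.1 - wvol y.2) g =
        ∑ x ∈ T ab, wwt 1 W x * muG {ab.1, ab.2} (F - wvol x) g := by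
      rw [hT, Finset.sum_image]
      · refine Finset.sum_congr rfl fun y _ => ?_
        rw [wwt_append, wvol_append, Nat.sub_sub]
      · intro y hy z hz hyz
        have hy' := Finset.mem_product.1 (Finset.mem_filter.1 (Finset.mem_coe.1 hy)).1
        have hz' := Finset.mem_product.1 (Finset.mem_filter.1 (Finset.mem_coe.1 hz)).1
        have k1 := (collC_word (hU _ _ hy'.1) (hV _ _ hy'.2)).2.2
        have k2 := (collC_word (hU _ _ hz'.1) (hV _ _ hz'.2)).2.2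
        have hyz' : y.1 ++ y.2 = z.1 ++ z.2 := hyz
        rw [hyz', k2] at k1
        rw [k1] at hyz'
        exact Prod.ext k1.symm (List.append_cancel_left hyz')
    rw [e1]
    refine Finset.sum_le_sum_of_subset_of_nonneg ?_ fun x _ _ => hG0 x ab
    intro x hx
    refine Finset.mem_filter.2 ⟨?_, (hTm ab x hx).2.2⟩
    rw [hS]
    exact Finset.mem_biUnion.2 ⟨ab, hab, hx⟩
  have hB : ∀ x ∈ S, (∑ ab ∈ Finset.Icc s₁ p ×ˢ Finset.Icc s₂ p,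
      if wend (s₁ + s₂ + 2) x = ab.1 + ab.2 + 2 then
        wwt 1 W x * muG {ab.1, ab.2} (F - wvol x) g else 0) ≤
      wwt 1 W x * NS (wend (s₁ + s₂ + 2) x) 0 (F - wvol x) (g + 1) := by
    intro x _
    rw [collC_NS, ← Finset.sum_filter]
    refine Finset.sum_le_sum_of_subset_of_nonneg ?_ fun ab _ _ => hG0 x ab
    intro ab hab
    have h3 := (Finset.mem_filter.1 hab).2
    rw [Finset.HasAntidiagonal.mem_antidiagonal, h3]
    omega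
  calc (∑ a ∈ Finset.Icc s₁ p, ∑ b ∈ Finset.Icc s₂ p, ∑ u ∈ U a, ∑ v ∈ V b,
      if wvol u + wvol v ≤ F then wwt 1 W u * wwt 1 W v * muG {a, b} (F - wvol u - wvol v) g
        else 0) = ∑ ab ∈ Finset.Icc s₁ p ×ˢ Finset.Icc s₂ p, (∑ u ∈ U ab.1, ∑ v ∈ V ab.2,
      if wvol u + wvol v ≤ F then wwt 1 W u * wwt 1 W v * muG {ab.1, ab.2} (F - wvol u - wvol v) g
        else 0) := by
        rw [Finset.sum_product]
    _ ≤ ∑ ab ∈ Finset.Icc s₁ p ×ˢ Finset.Icc s₂ p, ∑ x ∈ S,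
        (if wend (s₁ + s₂ + 2) x = ab.1 + ab.2 + 2 then
          wwt 1 W x * muG {ab.1, ab.2} (F - wvol x) g else 0) := Finset.sum_le_sum hA
    _ = ∑ x ∈ S, ∑ ab ∈ Finset.Icc s₁ p ×ˢ Finset.Icc s₂ p,
        (if wend (s₁ + s₂ + 2) x = ab.1 + ab.2 + 2 then
          wwt 1 W x * muG {ab.1, ab.2} (F - wvol x) g else 0) := Finset.sum_comm
    _ ≤ ∑ x ∈ S, wwt 1 W x * NS (wend (s₁ + s₂ + 2) x) 0 (F - wvol x) (g + 1) :=
        Finset.sum_le_sum hB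
    _ ≤ muG {s₁ + s₂ + 2} F (g + 1) :=
        hist_stop (s₁ + s₂ + 2) (by omega) 0 F (g + 1) (Or.inr (Nat.succ_ne_zero g)) S hSm

end SYS.Num
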