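import Pool.Agent.SYS.BD.CollB
import Pool.Agent.SYS.BD.CollC

/-!
# SYS-BD-Coll: collision (2.9 (a)), final form

`coll_mono` for the first hole (other hole `{p}`) and then for the second hole (other hole `{a}`) bounds the double sum by the
corresponding double sum for the levels `a`, `b`; summed over all pairs of levels this is bounded by `coll_two`.
-/

namespace SYS.Num

open Classical

private noncomputable def ctm (F g a b : ℕ) (u v : List Stp) : ℝ :=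
  if wvol u + wvol v ≤ F then
    wwt 1 W u * wwt 1 W v * muG {a, b} (F - wvol u - wvol v) g else 0

private theorem ctm_swap (F g a b : ℕ) (u v : List Stp) : ctm F g a b u v = ctm F g b a v u := by
  unfold ctm
  rw [Nat.add_comm (wvol u), mul_comm (wwt 1 W u), Multiset.pair_comm a b, Nat.sub_right_comm]

private theorem coll_one (s p a F g q : ℕ) (hs : 1 ≤ s) (hsa : s ≤ a) (hap : a ≤ p)
    (S : Finset (List Stp)) (hS : ∀ w ∈ S, FH s p w) (v : List Stp) :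
    ∑ w ∈ S, ctm F g p q w v ≤ ∑ u ∈ S.image (pfx a s), ctm F g a q u v := by
  have h0 : ({q} : Multiset ℕ) ≠ 0 := Multiset.singleton_ne_zero q
  have key : ∀ (c : ℕ) (w : List Stp), ctm F g c q w v = if wvol v ≤ F then
      wwt 1 W v * (if wvol w ≤ F - wvol v then
        wwt 1 W w * muG (c ::ₘ {q}) (F - wvol v - wvol w) g else 0) else 0 := by
    intro c w
    unfold ctm
    by_cases h1 : wvol w + wvol v ≤ F
    · rw [if_pos h1, if_pos (by omega), if_pos (by omega), Nat.sub_right_comm]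
      show wwt 1 W w * wwt 1 W v * muG (c ::ₘ {q}) (F - wvol v - wvol w) g = _
      ring
    · rw [if_neg h1]
      by_cases h2 : wvol v ≤ F
      · rw [if_pos h2, if_neg (by omega), mul_zero]
      · rw [if_neg h2]
  simp only [key]
  by_cases h2 : wvol v ≤ F
  · simp only [if_pos h2]
    rw [← Finset.mul_sum, ← Finset.mul_sum]
    exact mul_le_mul_of_nonneg_left
      (coll_mono s p a (F - wvol v) g {q} hs (Or.inl h0) hsa hap S hS)
      (wwt_nonneg zero_le_one W_nonneg v)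
  · simp only [if_neg h2, Finset.sum_const_zero, le_refl]

theorem coll (s₁ s₂ p F g : ℕ) (h1 : 1 ≤ s₁) (h2 : 1 ≤ s₂) (h1p : s₁ ≤ p) (h2p : s₂ ≤ p)
    (W₁ W₂ : Finset (List Stp)) (hW₁ : ∀ w ∈ W₁, FH s₁ p w) (hW₂ : ∀ w ∈ W₂, FH s₂ p w) :
    ((p : ℝ) + 1 - s₁) * (p + 1 - s₂) *
      (∑ w₁ ∈ W₁, ∑ w₂ ∈ W₂, if wvol w₁ + wvol w₂ ≤ F then
        wwt 1 W w₁ * wwt 1 W w₂ * muG {p, p} (F - wvol w₁ - wvol w₂) g else 0) ≤
      muG {s₁ + s₂ + 2} F (g + 1) := by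
  obtain ⟨U, hU⟩ : ∃ U : ℕ → Finset (List Stp), ∀ a, U a =
      if s₁ ≤ a ∧ a ≤ p then W₁.image (pfx a s₁) else ∅ := ⟨_, fun _ => rfl⟩
  obtain ⟨V, hV⟩ : ∃ V : ℕ → Finset (List Stp), ∀ b, V b =
      if s₂ ≤ b ∧ b ≤ p then W₂.image (pfx b s₂) else ∅ := ⟨_, fun _ => rfl⟩
  have hU' : ∀ a, ∀ u ∈ U a, FH s₁ a u := by
    intro a u hu
    rw [hU] at hu
    split_ifs at hu with h
    · obtain ⟨w, hw, rfl⟩ := Finset.mem_image.1 hu
      exact (FH_pfx (hW₁ w hw) h.1 h.2).1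
    · exact absurd hu (Finset.notMem_empty u)
  have hV' : ∀ b, ∀ v ∈ V b, FH s₂ b v := by
    intro b v hv
    rw [hV] at hv
    split_ifs at hv with h
    · obtain ⟨w, hw, rfl⟩ := Finset.mem_image.1 hv
      exact (FH_pfx (hW₂ w hw) h.1 h.2).1
    · exact absurd hv (Finset.notMem_empty v)
  have htwo := coll_two s₁ s₂ p F g h1 h2 U V hU' hV'
  obtain ⟨N, hN⟩ : ∃ N : ℝ, N = ∑ w₁ ∈ W₁, ∑ w₂ ∈ W₂, ctm F g p p w₁ w₂ := ⟨_, rfl⟩
  have hle : ∀ a ∈ Finset.Icc s₁ p, ∀ b ∈ Finset.Icc s₂ p,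
      N ≤ ∑ u ∈ U a, ∑ v ∈ V b, ctm F g a b u v := by
    intro a ha b hb
    rw [Finset.mem_Icc] at ha hb
    rw [hU, if_pos ha, hV, if_pos hb, hN, Finset.sum_comm]
    calc ∑ w₂ ∈ W₂, ∑ w₁ ∈ W₁, ctm F g p p w₁ w₂
        ≤ ∑ w₂ ∈ W₂, ∑ u ∈ W₁.image (pfx a s₁), ctm F g a p u w₂ :=
          Finset.sum_le_sum fun w₂ _ => coll_one s₁ p a F g p h1 ha.1 ha.2 W₁ hW₁ w₂
      _ = ∑ u ∈ W₁.image (pfx a s₁), ∑ w₂ ∈ W₂, ctm F g p a w₂ u := by
          rw [Finset.sum_comm]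
          exact Finset.sum_congr rfl fun u _ => Finset.sum_congr rfl fun w₂ _ =>
            ctm_swap F g a p u w₂
      _ ≤ ∑ u ∈ W₁.image (pfx a s₁), ∑ v ∈ W₂.image (pfx b s₂), ctm F g b a v u :=
          Finset.sum_le_sum fun u _ => coll_one s₂ p b F g a h2 hb.1 hb.2 W₂ hW₂ u
      _ = ∑ u ∈ W₁.image (pfx a s₁), ∑ v ∈ W₂.image (pfx b s₂), ctm F g a b u v :=
          Finset.sum_congr rfl fun u _ => Finset.sum_congr rfl fun v _ => ctm_swap F g b a v u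
  have hsum : ∑ _a ∈ Finset.Icc s₁ p, ∑ _b ∈ Finset.Icc s₂ p, N ≤
      ∑ a ∈ Finset.Icc s₁ p, ∑ b ∈ Finset.Icc s₂ p, ∑ u ∈ U a, ∑ v ∈ V b, ctm F g a b u v :=
    Finset.sum_le_sum fun a ha => Finset.sum_le_sum fun b hb => hle a ha b hb
  have hconst : ∑ _a ∈ Finset.Icc s₁ p, ∑ _b ∈ Finset.Icc s₂ p, N =
      ((p : ℝ) + 1 - s₁) * (p + 1 - s₂) * N := by
    rw [Finset.sum_const, Finset.sum_const, Nat.card_Icc, Nat.card_Icc, nsmul_eq_mul, nsmul_eq_mul,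
      Nat.cast_sub (by omega), Nat.cast_sub (by omega)]
    push_cast
    ring
  rw [hconst, hN] at hsum
  exact hsum.trans htwo

end SYS.Num
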