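import Pool.Agent.SYS.BD.Hist
import Pool.Agent.SYS.BD.FH

/-!
# SYS-BD-CollB: exploring a hole up to a lower level

PROOF. Group the `w ∈ S` by `u = pfx a s w` (`Finset.sum_fiberwise`-type); `w = u ++ v` with `v = sfx a s w`, `FH a p v` (`FH_pfx`), `wwt`, `wvol` are multiplicative/additive. For fixed `u` the words `v` form a finite prefix-free set (`FH_eq`) of words from `a`: `hist` for `F - wvol u`.
-/

namespace SYS.Num

open Classical

theorem coll_mono (s p a F g : ℕ) (Q : Multiset ℕ) (hs : 1 ≤ s) (hQ : Q ≠ 0 ∨ g ≠ 0) (hsa : s ≤ a)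
    (hap : a ≤ p) (S : Finset (List Stp)) (hS : ∀ w ∈ S, FH s p w) :
    (∑ w ∈ S, if wvol w ≤ F then wwt 1 W w * muG (p ::ₘ Q) (F - wvol w) g else 0) ≤
      ∑ u ∈ S.image (pfx a s), if wvol u ≤ F then wwt 1 W u * muG (a ::ₘ Q) (F - wvol u) g
        else 0 := by
  rw [← Finset.sum_fiberwise_of_maps_to (s := S) (t := S.image (pfx a s)) (g := pfx a s)
    (fun w hw => Finset.mem_image_of_mem _ hw)]
  refine Finset.sum_le_sum fun u _ => ?_
  by_cases hu : wvol u ≤ F
  · rw [if_pos hu]
    -- the words with the prefix `u` and small volume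
    set T : Finset (List Stp) := (S.filter fun w => pfx a s w = u).filter fun w => wvol w ≤ F with hT
    have hTm : ∀ w ∈ T, (w ∈ S ∧ pfx a s w = u) ∧ wvol w ≤ F := by
      intro w hw
      rw [hT, Finset.mem_filter, Finset.mem_filter] at hw
      exact hw
    have hTw : ∀ w ∈ T, u ++ sfx a s w = w := by
      intro w hw
      rw [← (hTm w hw).1.2]
      exact pfx_sfx a s w
    have hTf : ∀ w ∈ T, FH a p (sfx a s w) := fun w hw => (FH_pfx (hS w (hTm w hw).1.1) hsa hap).2
    have e1 : (∑ w ∈ S.filter (fun w => pfx a s w = u),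
        if wvol w ≤ F then wwt 1 W w * muG (p ::ₘ Q) (F - wvol w) g else 0) =
        ∑ w ∈ T, wwt 1 W w * muG (p ::ₘ Q) (F - wvol w) g := by
      rw [hT, Finset.sum_filter (fun w => wvol w ≤ F)]
    have hinj : Set.InjOn (sfx a s) (T : Set (List Stp)) := by
      intro w hw w' hw' h
      rw [← hTw w hw, ← hTw w' hw', h]
    have e2 : ∑ w ∈ T, wwt 1 W w * muG (p ::ₘ Q) (F - wvol w) g =
        wwt 1 W u * ∑ v ∈ T.image (sfx a s), wwt 1 W v * muG (wend a v ::ₘ Q) (F - wvol u - wvol v) g := by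
      rw [Finset.sum_image hinj, Finset.mul_sum]
      refine Finset.sum_congr rfl fun w hw => ?_
      have h1 : wend a (sfx a s w) = p := (hTf w hw).2.1
      rw [h1]
      conv_lhs => rw [← hTw w hw]
      rw [wwt_append, wvol_append, Nat.sub_add_eq, mul_assoc]
    rw [e1, e2]
    refine mul_le_mul_of_nonneg_left ?_ (wwt_nonneg zero_le_one W_nonneg u)
    refine hist a (hs.trans hsa) Q (F - wvol u) g hQ (T.image (sfx a s)) ?_ ?_
    · intro v hv v' hv' h
      obtain ⟨w, hw, rfl⟩ := Finset.mem_image.mp hv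
      obtain ⟨w', hw', rfl⟩ := Finset.mem_image.mp hv'
      exact FH_eq (hTf w hw) (hTf w' hw') h
    · intro v hv
      obtain ⟨w, hw, rfl⟩ := Finset.mem_image.mp hv
      refine ⟨(hTf w hw).1, ?_⟩
      have h1 := (hTm w hw).2
      rw [← hTw w hw, wvol_append] at h1
      omega
  · rw [if_neg hu]
    refine (Finset.sum_eq_zero fun w hw => ?_).le
    rw [if_neg]
    intro h
    apply hu
    have h1 := pfx_sfx a s w
    rw [(Finset.mem_filter.mp hw).2] at h1
    rw [← h1, wvol_append] at h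
    omega

end SYS.Num
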