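import Pool.Agent.SYS.BD.MgT

/-!
# SYS-BD-Cru: crude monotonicity (2.2, 2.3)

PROOF. All terms of `tutG` are nonnegative. (i) `up`: the first term (`p ≥ 2`: `tutG`, `p = 1`: `tutG_one`). (ii) `two`: for `p + 2 = m + 2` the convolution term with `x = (0, p)`, `y = (0, F)`, `z = (0, g)` and the splitting `(0, Q)`: `muG (0 ::ₘ 0) 0 0 = 1` (`tutG_zero`), so it is at least `muG (p ::ₘ Q) F g`.
(iii) `one`: (ii), then (i). (iv) `step`: (iii), then (i). `hole_le`: `p ≥ 3`: (i) repeatedly: `muG (p ::ₘ Q) F ≤ muG (3 ::ₘ Q) (F + p - 3) = 3 (F + p - 2) muG Q (F + p - 2)`, and `3 F' muG Q F' ≤ 3 (F' + 2) muG Q (F' + 2)` by (iv) for `3 ::ₘ Q`. `p = 2`: `muG (2 ::ₘ Q) F ≤ muG (3 ::ₘ Q) (F + 1)` (iii); `p = 1`: (ii).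
`hole_ge`: (ii) repeatedly down to `p = 1` or `2`, `muG (1 ::ₘ Q) F ≥ muG (2 ::ₘ Q) (F - 1)` (i), `muG_two`. `UBC`: induction on `P` with `hole_le`; `(3 (F + p)) * (3 (F + p + |Q|))^k ≤ (3 (F + |P|))^(k+1)`; at the end `muG_nu` (`F + |P|` even) or `0`. `LBC`: induction with `hole_ge`, `odds P` = number of odd
entries; `muG Q (F - p % 2 - ..)`.
-/

namespace SYS.Num

open Finset.HasAntidiagonal in
private theorem conv_nn {f h : Multiset ℕ → ℝ} (hf : ∀ R, 0 ≤ f R) (hh : ∀ R, 0 ≤ h R)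
    (Q : Multiset ℕ) : 0 ≤ SYS.A.conv f h Q := by
  unfold SYS.A.conv
  refine Multiset.sum_nonneg ?_
  intro x hx
  obtain ⟨y, _, rfl⟩ := Multiset.mem_map.mp hx
  exact mul_nonneg (hf _) (hh _)

private theorem conv_ge {f h : Multiset ℕ → ℝ} (hf : ∀ R, 0 ≤ f R) (hh : ∀ R, 0 ≤ h R)
    (Q : Multiset ℕ) : f 0 * h Q ≤ SYS.A.conv f h Q := by
  unfold SYS.A.conv
  refine Multiset.single_le_sum ?_ _ ?_
  · intro x hx
    obtain ⟨y, _, rfl⟩ := Multiset.mem_map.mp hx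
    exact mul_nonneg (hf _) (hh _)
  · refine Multiset.mem_map.mpr ⟨(0, Q), ?_, rfl⟩
    exact Multiset.mem_antidiagonal.mpr (zero_add Q)

open Finset.HasAntidiagonal in
private theorem t1_nn (m : ℕ) (Q : Multiset ℕ) (F g : ℕ) :
    0 ≤ (if F = 0 then 0 else muG ((m + 3) ::ₘ Q) (F - 1) g) := by
  split_ifs
  · exact le_rfl
  · exact muG_nonneg _ _ _

open Finset.HasAntidiagonal in
private theorem t2_nn (m : ℕ) (Q : Multiset ℕ) (F g : ℕ) :
    0 ≤ (if g = 0 then 0 else ∑ x ∈ antidiagonal m, muG (x.1 ::ₘ x.2 ::ₘ Q) F (g - 1)) := by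
  split_ifs
  · exact le_rfl
  · exact Finset.sum_nonneg fun _ _ => muG_nonneg _ _ _

open Finset.HasAntidiagonal in
private theorem t3_nn (m : ℕ) (Q : Multiset ℕ) (F g : ℕ) :
    0 ≤ ∑ x ∈ antidiagonal m, ∑ y ∈ antidiagonal F, ∑ z ∈ antidiagonal g,
      SYS.A.conv (fun R => muG (x.1 ::ₘ R) y.1 z.1) (fun R => muG (x.2 ::ₘ R) y.2 z.2) Q :=
  Finset.sum_nonneg fun _ _ => Finset.sum_nonneg fun _ _ => Finset.sum_nonneg fun _ _ =>
    conv_nn (fun _ => muG_nonneg _ _ _) (fun _ => muG_nonneg _ _ _) Q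

private theorem t4_nn (f : ℕ → Multiset ℕ) (Q : Multiset ℕ) (F g : ℕ) :
    0 ≤ (Q.map fun q : ℕ => (q : ℝ) * muG (f q) F g).sum := by
  refine Multiset.sum_nonneg ?_
  intro x hx
  obtain ⟨y, _, rfl⟩ := Multiset.mem_map.mp hx
  exact mul_nonneg (Nat.cast_nonneg _) (muG_nonneg _ _ _)

theorem up (p : ℕ) (hp : 1 ≤ p) (Q : Multiset ℕ) (F g : ℕ) :
    muG ((p + 1) ::ₘ Q) F g ≤ muG (p ::ₘ Q) (F + 1) g := by
  rcases Nat.lt_or_ge p 2 with h | h
  · have hp1 : p = 1 := by omega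
    subst hp1
    rw [tutG_one Q (F + 1) g, if_neg (Nat.succ_ne_zero F), Nat.add_sub_cancel]
    have h4 := t4_nn (fun q => (q - 1) ::ₘ Q.erase q) Q (F + 1) g
    linarith
  · obtain ⟨m, rfl⟩ : ∃ m, p = m + 2 := ⟨p - 2, by omega⟩
    rw [tutG m Q (F + 1) g]
    have h2 := t2_nn m Q (F + 1) g
    have h3 := t3_nn m Q (F + 1) g
    have h4 := t4_nn (fun q => (q + m) ::ₘ Q.erase q) Q (F + 1) g
    rw [if_neg (Nat.succ_ne_zero F), Nat.add_sub_cancel]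
    have e : m + 2 + 1 = m + 3 := rfl
    rw [e]
    linarith

open Finset.HasAntidiagonal in
theorem two (p : ℕ) (Q : Multiset ℕ) (F g : ℕ) : muG (p ::ₘ Q) F g ≤ muG ((p + 2) ::ₘ Q) F g := by
  rw [tutG p Q F g]
  have h1 := t1_nn p Q F g
  have h2 := t2_nn p Q F g
  have h4 := t4_nn (fun q => (q + p) ::ₘ Q.erase q) Q F g
  have h3 : muG (p ::ₘ Q) F g ≤ ∑ x ∈ antidiagonal p, ∑ y ∈ antidiagonal F, ∑ z ∈ antidiagonal g,
      SYS.A.conv (fun R => muG (x.1 ::ₘ R) y.1 z.1) (fun R => muG (x.2 ::ₘ R) y.2 z.2) Q := by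
    have a1 : muG (p ::ₘ Q) F g ≤
        SYS.A.conv (fun R => muG (0 ::ₘ R) 0 0) (fun R => muG (p ::ₘ R) F g) Q := by
      refine le_trans (le_of_eq ?_)
        (conv_ge (fun _ => muG_nonneg _ _ _) (fun _ => muG_nonneg _ _ _) Q)
      show muG (p ::ₘ Q) F g = muG (0 ::ₘ 0) 0 0 * muG (p ::ₘ Q) F g
      rw [tutG_zero, if_pos ⟨rfl, rfl, rfl⟩, one_mul]
    have nn : ∀ (x : ℕ × ℕ) (y : ℕ × ℕ) (z : ℕ × ℕ), 0 ≤
        SYS.A.conv (fun R => muG (x.1 ::ₘ R) y.1 z.1) (fun R => muG (x.2 ::ₘ R) y.2 z.2) Q :=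
      fun x y z => conv_nn (fun _ => muG_nonneg _ _ _) (fun _ => muG_nonneg _ _ _) Q
    have b3 := Finset.single_le_sum (s := antidiagonal g)
      (f := fun z : ℕ × ℕ => SYS.A.conv (fun R => muG (0 ::ₘ R) 0 z.1)
        (fun R => muG (p ::ₘ R) F z.2) Q) (fun z _ => nn (0, p) (0, F) z)
      (mem_antidiagonal.mpr (zero_add g) : (0, g) ∈ antidiagonal g)
    have b2 := Finset.single_le_sum (s := antidiagonal F)
      (f := fun y : ℕ × ℕ => ∑ z ∈ antidiagonal g, SYS.A.conv (fun R => muG (0 ::ₘ R) y.1 z.1)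
        (fun R => muG (p ::ₘ R) y.2 z.2) Q) (fun y _ => Finset.sum_nonneg fun z _ => nn (0, p) y z)
      (mem_antidiagonal.mpr (zero_add F) : (0, F) ∈ antidiagonal F)
    have b1 := Finset.single_le_sum (s := antidiagonal p)
      (f := fun x : ℕ × ℕ => ∑ y ∈ antidiagonal F, ∑ z ∈ antidiagonal g,
        SYS.A.conv (fun R => muG (x.1 ::ₘ R) y.1 z.1) (fun R => muG (x.2 ::ₘ R) y.2 z.2) Q)
      (fun x _ => Finset.sum_nonneg fun y _ => Finset.sum_nonneg fun z _ => nn x y z)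
      (mem_antidiagonal.mpr (zero_add p) : (0, p) ∈ antidiagonal p)
    exact a1.trans (b3.trans (b2.trans b1))
  linarith

theorem one (p : ℕ) (hp : 1 ≤ p) (Q : Multiset ℕ) (F g : ℕ) :
    muG (p ::ₘ Q) F g ≤ muG ((p + 1) ::ₘ Q) (F + 1) g :=
  (two p Q F g).trans (up (p + 1) (by omega) Q F g)

theorem step (p : ℕ) (hp : 1 ≤ p) (Q : Multiset ℕ) (F g : ℕ) :
    muG (p ::ₘ Q) F g ≤ muG (p ::ₘ Q) (F + 2) g :=
  (one p hp Q F g).trans (up p hp Q (F + 1) g)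

private theorem up_k (k : ℕ) (Q : Multiset ℕ) (F g : ℕ) :
    muG ((3 + k) ::ₘ Q) F g ≤ muG (3 ::ₘ Q) (F + k) g := by
  induction k generalizing F with
  | zero => exact le_rfl
  | succ k ih =>
    have h := ih (F + 1)
    have e : F + 1 + k = F + (k + 1) := by omega
    rw [e] at h
    exact (up (3 + k) (by omega) Q F g).trans h

theorem hole_le (p : ℕ) (hp : 1 ≤ p) (Q : Multiset ℕ) (F g : ℕ) :
    muG (p ::ₘ Q) F g ≤ 3 * (F + p) * muG Q (F + p) g := by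
  have key : muG (p ::ₘ Q) F g ≤ muG (3 ::ₘ Q) (F + (p - 1)) g := by
    rcases Nat.lt_or_ge p 3 with h | h
    · interval_cases p
      · exact two 1 Q F g
      · exact one 2 (by norm_num) Q F g
    · obtain ⟨k, rfl⟩ : ∃ k, p = 3 + k := ⟨p - 3, by omega⟩
      have h1 := (up_k k Q F g).trans (step 3 (by norm_num) Q (F + k) g)
      have e : F + k + 2 = F + (3 + k - 1) := by omega
      rw [e] at h1
      exact h1
  refine key.trans (le_of_eq ?_)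
  rw [muG_three]
  have e : F + (p - 1) + 1 = F + p := by omega
  have e' : (((F + (p - 1) : ℕ) : ℝ)) + 1 = (F : ℝ) + (p : ℝ) := by
    rw [← Nat.cast_succ, Nat.succ_eq_add_one, e, Nat.cast_add]
  rw [e, e']

private theorem down (k : ℕ) (p : ℕ) (Q : Multiset ℕ) (F g : ℕ) :
    muG (p ::ₘ Q) F g ≤ muG ((p + 2 * k) ::ₘ Q) F g := by
  induction k with
  | zero => exact le_rfl
  | succ k ih => exact ih.trans (two (p + 2 * k) Q F g)

private theorem two_ge (Q : Multiset ℕ) (F g : ℕ) :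
    3 * (F : ℝ) * muG Q F g ≤ muG (2 ::ₘ Q) F g := by
  rw [muG_two]
  have h0 := muG_nonneg Q F g
  have h1 : (0 : ℝ) ≤ if Q = 0 ∧ F = 0 ∧ g = 0 then 1 else 0 := by
    split_ifs
    · exact zero_le_one
    · exact le_rfl
  have h2 : (0 : ℝ) ≤ (Q.sum : ℝ) := Nat.cast_nonneg _
  have h3 := mul_nonneg h2 h0
  rw [Nat.cast_add, Nat.cast_mul, Nat.cast_ofNat, add_mul]
  linarith

theorem hole_ge (p : ℕ) (hp : 1 ≤ p) (Q : Multiset ℕ) (F g : ℕ) (hF : 1 ≤ F) :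
    3 * ((F - p % 2 : ℕ) : ℝ) * muG Q (F - p % 2) g ≤ muG (p ::ₘ Q) F g := by
  rcases Nat.mod_two_eq_zero_or_one p with h | h
  · rw [h, Nat.sub_zero]
    obtain ⟨k, rfl⟩ : ∃ k, p = 2 + 2 * k := ⟨p / 2 - 1, by omega⟩
    exact (two_ge Q F g).trans (down k 2 Q F g)
  · rw [h]
    obtain ⟨k, rfl⟩ : ∃ k, p = 1 + 2 * k := ⟨p / 2, by omega⟩
    obtain ⟨G, rfl⟩ : ∃ G, F = G + 1 := ⟨F - 1, by omega⟩
    rw [Nat.add_sub_cancel]
    exact (two_ge Q G g).trans ((up 1 le_rfl Q G g).trans (down k 1 Q (G + 1) g))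

private theorem nu_nn (n g : ℕ) : 0 ≤ SST.nu n g := by
  unfold SST.nu
  exact div_nonneg (Nat.cast_nonneg _) (Nat.cast_nonneg _)

theorem UBC (P : Multiset ℕ) (hP : ∀ p ∈ P, 1 ≤ p) (F g : ℕ) (hF : 1 ≤ F + P.sum) :
    muG P F g ≤ (3 * ((F + P.sum : ℕ) : ℝ)) ^ Multiset.card P * SST.nu ((F + P.sum) / 2) g := by
  induction P using Multiset.induction_on generalizing F with
  | empty =>
    rw [Multiset.card_zero, pow_zero, one_mul]
    rw [Multiset.sum_zero, add_zero] at hF ⊢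
    by_cases he : Even F
    · obtain ⟨n, hn⟩ := he
      have hn2 : F = 2 * n := by omega
      subst hn2
      rw [muG_nu n g (by omega), Nat.mul_div_cancel_left n (by norm_num)]
    · have h := muG_odd (P := 0) (F := F) (by rw [Multiset.sum_zero, add_zero]; exact he) g
      rw [h]
      exact nu_nn _ _
  | cons p Q ih =>
    have hp : 1 ≤ p := hP p (Multiset.mem_cons_self p Q)
    have hQ : ∀ q ∈ Q, 1 ≤ q := fun q hq => hP q (Multiset.mem_cons_of_mem hq)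
    have h1 := hole_le p hp Q F g
    have h2 := ih hQ (F + p) (by omega)
    have e : F + p + Q.sum = F + (p ::ₘ Q).sum := by rw [Multiset.sum_cons]; omega
    rw [e] at h2
    rw [Multiset.card_cons, pow_succ]
    have h3 : (3 * ((F : ℝ) + p)) ≤ 3 * ((F + (p ::ₘ Q).sum : ℕ) : ℝ) := by
      rw [Multiset.sum_cons, Nat.cast_add, Nat.cast_add]
      have : (0 : ℝ) ≤ ((Q.sum : ℕ) : ℝ) := Nat.cast_nonneg _
      linarith
    have h0 : (0 : ℝ) ≤ 3 * ((F : ℝ) + p) := by positivity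
    have hX : (0 : ℝ) ≤ (3 * ((F + (p ::ₘ Q).sum : ℕ) : ℝ)) ^ Multiset.card Q *
        SST.nu ((F + (p ::ₘ Q).sum) / 2) g := mul_nonneg (by positivity) (nu_nn _ _)
    calc muG (p ::ₘ Q) F g ≤ 3 * ((F : ℝ) + p) * muG Q (F + p) g := h1
      _ ≤ 3 * ((F : ℝ) + p) * ((3 * ((F + (p ::ₘ Q).sum : ℕ) : ℝ)) ^ Multiset.card Q *
          SST.nu ((F + (p ::ₘ Q).sum) / 2) g) := mul_le_mul_of_nonneg_left h2 h0
      _ ≤ 3 * ((F + (p ::ₘ Q).sum : ℕ) : ℝ) * ((3 * ((F + (p ::ₘ Q).sum : ℕ) : ℝ)) ^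
          Multiset.card Q * SST.nu ((F + (p ::ₘ Q).sum) / 2) g) := mul_le_mul_of_nonneg_right h3 hX
      _ = _ := by ring

/-- Number of odd entries. -/
def odds (P : Multiset ℕ) : ℕ := Multiset.card (P.filter fun p => p % 2 = 1)

private theorem odds_cons (p : ℕ) (Q : Multiset ℕ) : odds (p ::ₘ Q) = odds Q + p % 2 := by
  unfold odds
  rcases Nat.mod_two_eq_zero_or_one p with h | h
  · rw [Multiset.filter_cons_of_neg (p := fun p => p % 2 = 1) Q (by omega), h, add_zero]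
  · rw [Multiset.filter_cons_of_pos (p := fun p => p % 2 = 1) Q h, h, Multiset.card_cons]

theorem LBC (P : Multiset ℕ) (hP : ∀ p ∈ P, 1 ≤ p) (F g : ℕ) (hF : odds P + 1 ≤ F) :
    (3 * ((F - odds P : ℕ) : ℝ)) ^ Multiset.card P * muG 0 (F - odds P) g ≤ muG P F g := by
  induction P using Multiset.induction_on generalizing F with
  | empty =>
    have h : odds 0 = 0 := rfl
    rw [Multiset.card_zero, pow_zero, one_mul, h, Nat.sub_zero]
  | cons p Q ih =>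
    have hp : 1 ≤ p := hP p (Multiset.mem_cons_self p Q)
    have hQ : ∀ q ∈ Q, 1 ≤ q := fun q hq => hP q (Multiset.mem_cons_of_mem hq)
    have ho := odds_cons p Q
    have h1 := hole_ge p hp Q F g (by omega)
    have h2 := ih hQ (F - p % 2) (by omega)
    have e : F - p % 2 - odds Q = F - odds (p ::ₘ Q) := by omega
    rw [e] at h2
    rw [Multiset.card_cons, pow_succ]
    have h3 : 3 * ((F - odds (p ::ₘ Q) : ℕ) : ℝ) ≤ 3 * ((F - p % 2 : ℕ) : ℝ) := by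
      have : F - odds (p ::ₘ Q) ≤ F - p % 2 := by omega
      have h4 : ((F - odds (p ::ₘ Q) : ℕ) : ℝ) ≤ ((F - p % 2 : ℕ) : ℝ) := by exact_mod_cast this
      linarith
    have h0 : (0 : ℝ) ≤ 3 * ((F - odds (p ::ₘ Q) : ℕ) : ℝ) := by positivity
    have hX := muG_nonneg Q (F - p % 2) g
    calc (3 * ((F - odds (p ::ₘ Q) : ℕ) : ℝ)) ^ Multiset.card Q *
          (3 * ((F - odds (p ::ₘ Q) : ℕ) : ℝ)) * muG 0 (F - odds (p ::ₘ Q)) g
        = 3 * ((F - odds (p ::ₘ Q) : ℕ) : ℝ) *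
          ((3 * ((F - odds (p ::ₘ Q) : ℕ) : ℝ)) ^ Multiset.card Q *
            muG 0 (F - odds (p ::ₘ Q)) g) := by ring
      _ ≤ 3 * ((F - odds (p ::ₘ Q) : ℕ) : ℝ) * muG Q (F - p % 2) g :=
          mul_le_mul_of_nonneg_left h2 h0
      _ ≤ 3 * ((F - p % 2 : ℕ) : ℝ) * muG Q (F - p % 2) g := mul_le_mul_of_nonneg_right h3 hX
      _ ≤ muG (p ::ₘ Q) F g := h1

end SYS.Num
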