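import Pool.Agent.SYS.BD.MgO

/-!
# SYS-BD-Hist: sums over words

PROOF. `hist_abs_all`, `hist_abs_pf`: induction on a bound for the lengths of the words in `S`. Split `S` into `{[]} ∩ S` and, for every step `s`, the words `s :: w` (only `T`, `L k a`, `R k a` with `k + 3 ≤ p`, `a ≤ F` occur, by `WOk` and the bound of the volume); the words `w` with `s :: w ∈ S` form a finite set of
words from `s.nx p` of smaller length with `wvol w ≤ F - s.vol`, and `wwt 1 W (s :: w) = s.wt 1 W * wwt 1 W w`. For `pf`: if `[] ∈ S` then `S = {[]}`. `hstep` is used once. `hist`, `hist_stop`: `tutO` (for `p ≥ 2`), `tutG_one` for `p = 1` (`range (1 - 2) = ∅`), `NS 1 Q F g`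
is `NS` with `antidiagonal 0`: `muG (0 ::ₘ ..) = 0`. `hist_rw` is the same for the weights `PRW x` (in the form used for supermartingales).
-/

namespace SYS.Num

open Classical

/-- One-step inequality of the peeling for a function of perimeter and number of triangles. -/
def Stepw (Z Φ : ℕ → ℕ → ℝ) : Prop := ∀ p F : ℕ, 1 ≤ p → Z p F + (if F = 0 then 0 else Φ (p + 1) (F - 1)) +
    2 * (∑ k ∈ Finset.range (p - 2), ∑ a ∈ Finset.range (F + 1), W k a * Φ (p - 2 - k) (F - a)) ≤ Φ p F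

/-- the possible steps at perimeter `p` with at most `F` triangles -/
private def hiSt (p F : ℕ) : Finset Stp :=
  (if F = 0 then ∅ else {Stp.T}) ∪
    ((Finset.range (p - 2) ×ˢ Finset.range (F + 1)).image (fun x => Stp.L x.1 x.2) ∪
      (Finset.range (p - 2) ×ˢ Finset.range (F + 1)).image (fun x => Stp.R x.1 x.2))

private theorem hiSt_T {p F : ℕ} : Stp.T ∈ hiSt p F ↔ F ≠ 0 := by
  unfold hiSt
  by_cases h : F = 0
  · simp [h]
  · simp [h]

private theorem hiSt_L {p F k a : ℕ} : Stp.L k a ∈ hiSt p F ↔ k < p - 2 ∧ a < F + 1 := by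
  unfold hiSt
  by_cases h : F = 0
  · simp [h, eq_comm]
  · simp [h]

private theorem hiSt_R {p F k a : ℕ} : Stp.R k a ∈ hiSt p F ↔ k < p - 2 ∧ a < F + 1 := by
  unfold hiSt
  by_cases h : F = 0
  · simp [h, eq_comm]
  · simp [h]

private theorem hiSt_ok {p F : ℕ} {s : Stp} (h : s ∈ hiSt p F) : s.Ok p := by
  cases s with
  | T => trivial
  | L k a =>
    have h1 := hiSt_L.1 h
    show k + 3 ≤ p
    omega
  | R k a =>
    have h1 := hiSt_R.1 h
    show k + 3 ≤ p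
    omega

private theorem hiSt_mem {p F : ℕ} {s : Stp} (h1 : s.Ok p) (h2 : s.vol ≤ F) : s ∈ hiSt p F := by
  cases s with
  | T =>
    have h3 : 1 ≤ F := h2
    exact hiSt_T.2 (by omega)
  | L k a =>
    have h3 : a ≤ F := h2
    have h4 : k + 3 ≤ p := h1
    exact hiSt_L.2 ⟨by omega, by omega⟩
  | R k a =>
    have h3 : a ≤ F := h2
    have h4 : k + 3 ≤ p := h1
    exact hiSt_R.2 ⟨by omega, by omega⟩

private theorem hiSt_sum (p F : ℕ) (f : Stp → ℝ) : ∑ s ∈ hiSt p F, f s =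
    (if F = 0 then 0 else f Stp.T) +
      ((∑ k ∈ Finset.range (p - 2), ∑ a ∈ Finset.range (F + 1), f (Stp.L k a)) +
        ∑ k ∈ Finset.range (p - 2), ∑ a ∈ Finset.range (F + 1), f (Stp.R k a)) := by
  unfold hiSt
  rw [Finset.sum_union, Finset.sum_union, Finset.sum_image, Finset.sum_image, Finset.sum_product,
    Finset.sum_product]
  · congr 1
    by_cases h : F = 0
    · simp [h]
    · simp [h]
  · intro x _ y _ h
    have h1 := Stp.R.inj h
    exact Prod.ext h1.1 h1.2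
  · intro x _ y _ h
    have h1 := Stp.L.inj h
    exact Prod.ext h1.1 h1.2
  · rw [Finset.disjoint_left]
    intro s h1 h2
    rw [Finset.mem_image] at h1 h2
    obtain ⟨x, _, hx⟩ := h1
    obtain ⟨y, _, hy⟩ := h2
    rw [← hx] at hy
    exact Stp.noConfusion hy
  · rw [Finset.disjoint_left]
    intro s h1 h2
    have h3 : s = Stp.T := by
      by_cases h : F = 0
      · simp [h] at h1
      · simpa [h] using h1
    rw [h3] at h2
    simp at h2

/-- the words behind the first step `s` -/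
private noncomputable def hiSub (S : Finset (List Stp)) (s : Stp) : Finset (List Stp) :=
  S.preimage (List.cons s) (List.cons_injective.injOn)

private theorem mem_hiSub {S : Finset (List Stp)} {s : Stp} {w : List Stp} :
    w ∈ hiSub S s ↔ s :: w ∈ S := by
  unfold hiSub
  rw [Finset.mem_preimage]

private theorem hi_split (p F : ℕ) (S : Finset (List Stp)) (hS : ∀ w ∈ S, WOk p w ∧ wvol w ≤ F)
    (f : List Stp → ℝ) : ∑ w ∈ S, f w =
      (if [] ∈ S then f [] else 0) + ∑ s ∈ hiSt p F, ∑ w ∈ hiSub S s, f (s :: w) := by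
  have h1 : ∑ w ∈ S, f w = ∑ w ∈ S.filter (fun w => w = []), f w +
      ∑ w ∈ S.filter (fun w => ¬ w = []), f w := (Finset.sum_filter_add_sum_filter_not _ _ _).symm
  rw [h1]
  congr 1
  · rw [Finset.sum_filter, Finset.sum_ite_eq' S [] f]
  · rw [Finset.sum_sigma' (hiSt p F) (fun s => hiSub S s) (fun s w => f (s :: w))]
    symm
    refine Finset.sum_bij (fun x _ => x.1 :: x.2) ?_ ?_ ?_ ?_
    · intro x hx
      rw [Finset.mem_sigma, mem_hiSub] at hx
      rw [Finset.mem_filter]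
      exact ⟨hx.2, List.cons_ne_nil _ _⟩
    · intro x _ y _ h
      have h2 := List.cons.inj h
      obtain ⟨x1, x2⟩ := x
      obtain ⟨y1, y2⟩ := y
      dsimp only at h2
      rw [h2.1, h2.2]
    · intro w hw
      rw [Finset.mem_filter] at hw
      obtain ⟨hw1, hw2⟩ := hw
      cases w with
      | nil => exact absurd rfl hw2
      | cons s w =>
        have h2 := hS _ hw1
        rw [WOk_cons, wvol_cons] at h2
        refine ⟨⟨s, w⟩, ?_, rfl⟩
        rw [Finset.mem_sigma, mem_hiSub]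
        exact ⟨hiSt_mem h2.1.1 ((Nat.le_add_right s.vol (wvol w)).trans h2.2), hw1⟩
    · intro x _
      rfl

private theorem hi_step {Z Φ : ℕ → ℕ → ℝ} (hs : Stepw Z Φ) (p F : ℕ) (hp : 1 ≤ p) :
    Z p F + ∑ s ∈ hiSt p F, s.wt 1 W * Φ (s.nx p) (F - s.vol) ≤ Φ p F := by
  refine le_trans (le_of_eq ?_) (hs p F hp)
  rw [hiSt_sum]
  have h1 : ∀ k a : ℕ, (Stp.L k a).wt 1 W * Φ ((Stp.L k a).nx p) (F - (Stp.L k a).vol) =
      W k a * Φ (p - 2 - k) (F - a) := by
    intro k a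
    show W k a * Φ (p - (k + 2)) (F - a) = _
    rw [show p - (k + 2) = p - 2 - k by omega]
  have h2 : ∀ k a : ℕ, (Stp.R k a).wt 1 W * Φ ((Stp.R k a).nx p) (F - (Stp.R k a).vol) =
      W k a * Φ (p - 2 - k) (F - a) := h1
  have h3 : (Stp.T).wt 1 W * Φ ((Stp.T).nx p) (F - (Stp.T).vol) = Φ (p + 1) (F - 1) := by
    show 1 * Φ (p + 1) (F - 1) = _
    rw [one_mul]
  rw [h3]
  simp only [h1, h2]
  ring

private theorem hiSub_ok {p F : ℕ} {S : Finset (List Stp)} (hS : ∀ w ∈ S, WOk p w ∧ wvol w ≤ F) {s : Stp} :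
    ∀ w ∈ hiSub S s, WOk (s.nx p) w ∧ wvol w ≤ F - s.vol := by
  intro w hw
  have h1 := hS _ (mem_hiSub.1 hw)
  rw [WOk_cons, wvol_cons] at h1
  exact ⟨h1.1.2, by omega⟩

private theorem hi_all {Z Φ : ℕ → ℕ → ℝ} (h0 : ∀ p F, 0 ≤ Φ p F) (hZ : ∀ p F, 0 ≤ Z p F)
    (hs : Stepw Z Φ) (N : ℕ) : ∀ (p F : ℕ) (_ : 1 ≤ p) (S : Finset (List Stp))
    (_ : ∀ w ∈ S, w.length < N) (_ : ∀ w ∈ S, WOk p w ∧ wvol w ≤ F),
    ∑ w ∈ S, wwt 1 W w * Z (wend p w) (F - wvol w) ≤ Φ p F := by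
  induction N with
  | zero =>
    intro p F _ S hN _
    have h1 : S = ∅ := Finset.eq_empty_of_forall_notMem fun w hw => absurd (hN w hw) (Nat.not_lt_zero _)
    rw [h1, Finset.sum_empty]
    exact h0 p F
  | succ N ih =>
    intro p F hp S hN hS
    rw [hi_split p F S hS]
    refine le_trans (add_le_add ?_ (Finset.sum_le_sum fun s hsm => ?_)) (hi_step hs p F hp)
    · split
      · rw [wwt_nil, wend_nil, wvol_nil, one_mul, Nat.sub_zero]
      · exact hZ p F
    · have h1 := ih (s.nx p) (F - s.vol) (Stp.one_le_nx (hiSt_ok hsm)) (hiSub S s) (fun w hw => by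
        have := hN _ (mem_hiSub.1 hw)
        rw [List.length_cons] at this
        omega) (hiSub_ok hS)
      have h2 : ∑ w ∈ hiSub S s, wwt 1 W (s :: w) * Z (wend p (s :: w)) (F - wvol (s :: w)) =
          s.wt 1 W * ∑ w ∈ hiSub S s, wwt 1 W w * Z (wend (s.nx p) w) (F - s.vol - wvol w) := by
        rw [Finset.mul_sum]
        refine Finset.sum_congr rfl fun w _ => ?_
        rw [wwt_cons, wend_cons, wvol_cons, Nat.sub_sub, mul_assoc]
      rw [h2]
      exact mul_le_mul_of_nonneg_left h1 (s.wt_nonneg zero_le_one W_nonneg)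

private theorem hi_pf {Z Φ : ℕ → ℕ → ℝ} (h0 : ∀ p F, 0 ≤ Φ p F) (hZ : ∀ p F, 0 ≤ Z p F)
    (hs : Stepw Z Φ) (N : ℕ) : ∀ (p F : ℕ) (_ : 1 ≤ p) (S : Finset (List Stp)) (_ : PF S)
    (_ : ∀ w ∈ S, w.length < N) (_ : ∀ w ∈ S, WOk p w ∧ wvol w ≤ F),
    ∑ w ∈ S, wwt 1 W w * Φ (wend p w) (F - wvol w) ≤ Φ p F := by
  induction N with
  | zero =>
    intro p F _ S _ hN _
    have h1 : S = ∅ := Finset.eq_empty_of_forall_notMem fun w hw => absurd (hN w hw) (Nat.not_lt_zero _)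
    rw [h1, Finset.sum_empty]
    exact h0 p F
  | succ N ih =>
    intro p F hp S hpf hN hS
    by_cases hnil : [] ∈ S
    · have h1 : S = {[]} := by
        ext w
        rw [Finset.mem_singleton]
        constructor
        · intro hw
          exact (hpf _ hnil _ hw List.nil_prefix).symm
        · rintro rfl
          exact hnil
      rw [h1, Finset.sum_singleton, wwt_nil, wend_nil, wvol_nil, one_mul, Nat.sub_zero]
    rw [hi_split p F S hS, if_neg hnil]
    refine le_trans (add_le_add (hZ p F) (Finset.sum_le_sum fun s hsm => ?_)) (hi_step hs p F hp)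
    have h1 := ih (s.nx p) (F - s.vol) (Stp.one_le_nx (hiSt_ok hsm)) (hiSub S s) (fun u hu w hw huw => by
        have h3 := hpf _ (mem_hiSub.1 hu) _ (mem_hiSub.1 hw) (List.cons_prefix_cons.2 ⟨rfl, huw⟩)
        exact (List.cons.inj h3).2) (fun w hw => by
        have := hN _ (mem_hiSub.1 hw)
        rw [List.length_cons] at this
        omega) (hiSub_ok hS)
    have h2 : ∑ w ∈ hiSub S s, wwt 1 W (s :: w) * Φ (wend p (s :: w)) (F - wvol (s :: w)) =
        s.wt 1 W * ∑ w ∈ hiSub S s, wwt 1 W w * Φ (wend (s.nx p) w) (F - s.vol - wvol w) := by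
      rw [Finset.mul_sum]
      refine Finset.sum_congr rfl fun w _ => ?_
      rw [wwt_cons, wend_cons, wvol_cons, Nat.sub_sub, mul_assoc]
    rw [h2]
    exact mul_le_mul_of_nonneg_left h1 (s.wt_nonneg zero_le_one W_nonneg)

private theorem hi_len (S : Finset (List Stp)) : ∀ w ∈ S, w.length < S.sup List.length + 1 :=
  fun _ hw => Nat.lt_succ_of_le (Finset.le_sup (f := List.length) hw)

theorem hist_abs_all {Z Φ : ℕ → ℕ → ℝ} (h0 : ∀ p F, 0 ≤ Φ p F) (hZ : ∀ p F, 0 ≤ Z p F)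
    (hs : Stepw Z Φ) (p F : ℕ) (hp : 1 ≤ p) (S : Finset (List Stp))
    (hS : ∀ w ∈ S, WOk p w ∧ wvol w ≤ F) :
    ∑ w ∈ S, wwt 1 W w * Z (wend p w) (F - wvol w) ≤ Φ p F :=
  hi_all h0 hZ hs _ p F hp S (hi_len S) hS

theorem hist_abs_pf {Z Φ : ℕ → ℕ → ℝ} (h0 : ∀ p F, 0 ≤ Φ p F) (hZ : ∀ p F, 0 ≤ Z p F)
    (hs : Stepw Z Φ) (p F : ℕ) (hp : 1 ≤ p) (S : Finset (List Stp)) (hpf : PF S)
    (hS : ∀ w ∈ S, WOk p w ∧ wvol w ≤ F) :
    ∑ w ∈ S, wwt 1 W w * Φ (wend p w) (F - wvol w) ≤ Φ p F :=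
  hi_pf h0 hZ hs _ p F hp S hpf (hi_len S) hS

theorem stepw_muG (Q : Multiset ℕ) (g : ℕ) (h : Q ≠ 0 ∨ g ≠ 0) :
    Stepw (fun p F => NS p Q F g) (fun p F => muG (p ::ₘ Q) F g) := by
  intro p F hp
  show NS p Q F g + (if F = 0 then 0 else muG ((p + 1) ::ₘ Q) (F - 1) g) +
    2 * (∑ k ∈ Finset.range (p - 2), ∑ a ∈ Finset.range (F + 1),
      W k a * muG ((p - 2 - k) ::ₘ Q) (F - a) g) ≤ muG (p ::ₘ Q) F g
  by_cases h2 : 2 ≤ p
  · rw [tutO p Q F g h2 h]
    have h3 := SEP_nonneg p Q F g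
    have h4 := MRG_nonneg p Q F g
    linarith
  · have h3 : p = 1 := by omega
    subst h3
    rw [tutG_one]
    have h4 : NS 1 Q F g = 0 := by
      unfold NS
      split
      · rfl
      · rw [show 1 - 2 = 0 from rfl, Finset.HasAntidiagonal.antidiagonal_zero, Finset.sum_singleton, tutG_zero,
          if_neg]
        rintro ⟨h5, -, -⟩
        exact Multiset.cons_ne_zero h5
    have h5 : 0 ≤ (Q.map fun q : ℕ => (q : ℝ) * muG ((q - 1) ::ₘ Q.erase q) F g).sum := by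
      refine Multiset.sum_nonneg fun x hx => ?_
      rw [Multiset.mem_map] at hx
      obtain ⟨q, -, rfl⟩ := hx
      exact mul_nonneg (Nat.cast_nonneg _) (muG_nonneg _ _ _)
    rw [h4, show 1 - 2 = 0 from rfl, Finset.sum_range_zero]
    linarith

theorem hist (p : ℕ) (hp : 1 ≤ p) (Q : Multiset ℕ) (F g : ℕ) (h : Q ≠ 0 ∨ g ≠ 0)
    (S : Finset (List Stp)) (hpf : PF S) (hS : ∀ w ∈ S, WOk p w ∧ wvol w ≤ F) :
    ∑ w ∈ S, wwt 1 W w * muG (wend p w ::ₘ Q) (F - wvol w) g ≤ muG (p ::ₘ Q) F g :=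
  hist_abs_pf (Z := fun p F => NS p Q F g) (Φ := fun p F => muG (p ::ₘ Q) F g)
    (fun _ _ => muG_nonneg _ _ _) (fun _ _ => NS_nonneg _ _ _ _) (stepw_muG Q g h) p F hp S hpf hS

theorem hist_stop (p : ℕ) (hp : 1 ≤ p) (Q : Multiset ℕ) (F g : ℕ) (h : Q ≠ 0 ∨ g ≠ 0)
    (S : Finset (List Stp)) (hS : ∀ w ∈ S, WOk p w ∧ wvol w ≤ F) :
    ∑ w ∈ S, wwt 1 W w * NS (wend p w) Q (F - wvol w) g ≤ muG (p ::ₘ Q) F g :=
  hist_abs_all (Z := fun p F => NS p Q F g) (Φ := fun p F => muG (p ::ₘ Q) F g)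
    (fun _ _ => muG_nonneg _ _ _) (fun _ _ => NS_nonneg _ _ _ _) (stepw_muG Q g h) p F hp S hS

end SYS.Num
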