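import Pool.Agent.SYS.Num.Defs
import Pool.Agent.SYS.A.Br

/-!
# SYS-BD-Mg: first properties of `muG`
-/

namespace SYS.Num

theorem muG_nonneg (P : Multiset ℕ) (F g : ℕ) : 0 ≤ muG P F g := by
  unfold muG
  split_ifs
  · exact_mod_cast SYS.A.muP_nonneg P F _
  · exact le_rfl

theorem muG_of {P : Multiset ℕ} {F g V : ℕ} (h : 2 * V + 4 * g + 2 * Multiset.card P = 4 + F + P.sum) :
    muG P F g = (((SYS.A.muP P F).coeff V : ℚ) : ℝ) := by
  unfold muG
  have h1 : Even (F + P.sum) := by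
    rw [Nat.even_iff]
    omega
  have h2 : 4 * g + 2 * Multiset.card P ≤ 4 + F + P.sum := by omega
  have h3 : (4 + F + P.sum - 4 * g - 2 * Multiset.card P) / 2 = V := by omega
  rw [if_pos ⟨h1, h2⟩, h3]

theorem muG_not {P : Multiset ℕ} {F g : ℕ}
    (h : ∀ V : ℕ, 2 * V + 4 * g + 2 * Multiset.card P ≠ 4 + F + P.sum) : muG P F g = 0 := by
  unfold muG
  rw [if_neg]
  rintro ⟨h1, h2⟩
  rw [Nat.even_iff] at h1
  exact h ((4 + F + P.sum - 4 * g - 2 * Multiset.card P) / 2) (by omega)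

/-- Every coefficient is some `muG`, or `0`. -/
theorem coeff_ne {P : Multiset ℕ} {F V : ℕ} (h : (SYS.A.muP P F).coeff V ≠ 0) :
    ∃ g : ℕ, 2 * V + 4 * g + 2 * Multiset.card P = 4 + F + P.sum ∧
      muG P F g = (((SYS.A.muP P F).coeff V : ℚ) : ℝ) := by
  obtain ⟨g, hg⟩ := SYS.A.muP_euler h
  exact ⟨g, hg, muG_of hg⟩

theorem muG_mu {ι : Type} [Fintype ι] (p : ι → ℕ) {F g V : ℕ} (h0 : Nonempty ι ∨ 0 < F)
    (h : 2 * V + 4 * g + 2 * Fintype.card ι = 4 + F + ∑ i, p i) :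
    muG (Finset.univ.val.map p) F g = ((mu p F V : ℚ) : ℝ) := by
  rw [SYS.A.mu_eq p F V h0]
  refine muG_of ?_
  rw [Multiset.card_map]
  exact h

theorem muG_list (P : List ℕ) {F g V : ℕ} (h0 : P ≠ [] ∨ 0 < F)
    (h : 2 * V + 4 * g + 2 * P.length = 4 + F + P.sum) :
    muG (P : Multiset ℕ) F g = ((muL P F V : ℚ) : ℝ) := by
  have h1 : (Finset.univ : Finset (Fin P.length)).val.map (fun i => P.get i) = (P : Multiset ℕ) := by
    have h2 : (Finset.univ : Finset (Fin P.length)).val.map P.get = List.ofFn P.get :=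
      Fin.univ_val_map P.get
    rw [List.ofFn_get] at h2
    exact h2
  have h0' : Nonempty (Fin P.length) ∨ 0 < F := by
    rcases h0 with h0 | h0
    · exact Or.inl ⟨⟨0, List.length_pos_iff.2 h0⟩⟩
    · exact Or.inr h0
  unfold muL
  rw [SYS.A.mu_eq _ F V h0', h1]
  refine muG_of ?_
  rw [Multiset.coe_card, Multiset.sum_coe]
  exact h

theorem muG_nu (n g : ℕ) (hn : 1 ≤ n) : muG 0 (2 * n) g = SST.nu n g := by
  by_cases hg : 2 * g ≤ n + 2
  · rw [SYS.A.nu_mu n g hn hg]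
    refine muG_of ?_
    rw [Multiset.card_zero, Multiset.sum_zero]
    omega
  · rw [SST.T.nu_eq_zero n g (by omega)]
    refine muG_not fun V => ?_
    rw [Multiset.card_zero, Multiset.sum_zero]
    omega

theorem muG_odd {P : Multiset ℕ} {F : ℕ} (h : ¬ Even (F + P.sum)) (g : ℕ) : muG P F g = 0 := by
  unfold muG
  rw [if_neg fun h1 => h h1.1]

private theorem conM_zero' : SYS.A.conM 0 = 0 := by
  unfold SYS.A.conM SYS.A.con
  have h : IsEmpty {α : SYS.A.Glu (SYS.A.Dt (SYS.A.fam 0)) // SYS.A.Cn (SYS.A.fam 0) α} := by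
    refine ⟨fun α => ?_⟩
    obtain ⟨x⟩ := α.2.1
    exact Multiset.notMem_zero _ (Multiset.coe_mem (x := x))
  exact finsum_of_isEmpty _

theorem muG_zero_zero (g : ℕ) : muG 0 0 g = 0 := by
  have h : SYS.A.muP 0 0 = 0 := by
    unfold SYS.A.muP
    rw [Multiset.replicate_zero, add_zero, conM_zero', mul_zero]
  unfold muG
  rw [h]
  split_ifs
  · rw [Polynomial.coeff_zero, Rat.cast_zero]
  · rfl

theorem W_nonneg (k a : ℕ) : 0 ≤ W k a := muG_nonneg _ _ _

theorem W_zero_zero : W 0 0 = 1 := by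
  unfold W
  rw [muG_of (V := 1) (by rw [Multiset.card_singleton, Multiset.sum_singleton])]
  rw [← Multiset.cons_zero, SYS.A.muP_zero, if_pos ⟨rfl, rfl⟩, Polynomial.coeff_X_one, Rat.cast_one]

theorem W_zero {a : ℕ} (ha : a ≠ 0) : W 0 a = 0 := by
  unfold W muG
  have h : SYS.A.muP {0} a = 0 := by
    rw [← Multiset.cons_zero, SYS.A.muP_zero, if_neg fun h1 => ha h1.2]
  rw [h]
  split_ifs
  · rw [Polynomial.coeff_zero, Rat.cast_zero]
  · rfl

theorem W_odd {k a : ℕ} (h : ¬ Even (a + k)) : W k a = 0 := by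
  unfold W
  refine muG_odd ?_ 0
  rw [Multiset.sum_singleton]
  exact h

end SYS.Num
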