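import Pool.Agent.SYS.BD.MgT

/-!
# SYS-BD-MgO: Tutte's equation with the non-planar terms separated

`NS` the gluings inside the hole with connected complement, `SEP` those which cut the surface into two pieces none of which is a disc without holes (`muN` is `muG` without the discs), `MRG` the gluings to other holes.
-/

namespace SYS.Num

open Finset.HasAntidiagonal

/-- `muG` without the discs. -/
noncomputable def muN (k : ℕ) (R : Multiset ℕ) (F g : ℕ) : ℝ :=
  if R = 0 ∧ g = 0 then 0 else muG (k ::ₘ R) F g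

noncomputable def NS (p : ℕ) (Q : Multiset ℕ) (F g : ℕ) : ℝ :=
  if g = 0 then 0 else ∑ x ∈ antidiagonal (p - 2), muG (x.1 ::ₘ x.2 ::ₘ Q) F (g - 1)

noncomputable def SEP (p : ℕ) (Q : Multiset ℕ) (F g : ℕ) : ℝ :=
  ∑ x ∈ antidiagonal (p - 2), ∑ y ∈ antidiagonal F, ∑ z ∈ antidiagonal g,
    SYS.A.conv (fun R => muN x.1 R y.1 z.1) (fun R => muN x.2 R y.2 z.2) Q

noncomputable def MRG (p : ℕ) (Q : Multiset ℕ) (F g : ℕ) : ℝ :=
  (Q.map fun q : ℕ => (q : ℝ) * muG ((q + p - 2) ::ₘ Q.erase q) F g).sum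

theorem conv_single (f h : Multiset ℕ → ℝ) (hf : ∀ R, R ≠ 0 → f R = 0) (Q : Multiset ℕ) :
    SYS.A.conv f h Q = f 0 * h Q := by
  induction Q using Multiset.induction_on generalizing h with
  | empty => exact SYS.A.conv_zero f h
  | cons k P ih =>
    rw [SYS.A.conv_cons, ih]
    have h0 : (fun Q : Multiset ℕ => f (k ::ₘ Q)) = fun _ => 0 := by
      funext Q
      exact hf _ Multiset.cons_ne_zero
    rw [h0]
    have h1 : SYS.A.conv (fun _ : Multiset ℕ => (0 : ℝ)) h P = 0 := by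
      simp [SYS.A.conv]
    rw [h1, add_zero]

theorem NS_nonneg (p : ℕ) (Q : Multiset ℕ) (F g : ℕ) : 0 ≤ NS p Q F g := by
  unfold NS
  split_ifs
  · exact le_refl _
  · exact Finset.sum_nonneg fun x _ => muG_nonneg _ _ _

private theorem mgo_nn (k : ℕ) (R : Multiset ℕ) (F g : ℕ) : 0 ≤ muN k R F g := by
  unfold muN
  split_ifs
  · exact le_refl _
  · exact muG_nonneg _ _ _

theorem SEP_nonneg (p : ℕ) (Q : Multiset ℕ) (F g : ℕ) : 0 ≤ SEP p Q F g := by
  refine Finset.sum_nonneg fun x _ => Finset.sum_nonneg fun y _ => Finset.sum_nonneg fun z _ => ?_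
  unfold SYS.A.conv
  refine Multiset.sum_nonneg fun r hr => ?_
  obtain ⟨t, _, rfl⟩ := Multiset.mem_map.mp hr
  exact mul_nonneg (mgo_nn _ _ _ _) (mgo_nn _ _ _ _)

theorem MRG_nonneg (p : ℕ) (Q : Multiset ℕ) (F g : ℕ) : 0 ≤ MRG p Q F g := by
  unfold MRG
  refine Multiset.sum_nonneg fun r hr => ?_
  obtain ⟨t, _, rfl⟩ := Multiset.mem_map.mp hr
  exact mul_nonneg (Nat.cast_nonneg _) (muG_nonneg _ _ _)

private noncomputable def mgoD (k : ℕ) (R : Multiset ℕ) (F g : ℕ) : ℝ := if R = 0 ∧ g = 0 then W k F else 0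

private theorem mgo_split (k : ℕ) (R : Multiset ℕ) (F g : ℕ) :
    muG (k ::ₘ R) F g = muN k R F g + mgoD k R F g := by
  unfold muN mgoD
  split_ifs with h
  · rw [h.1, h.2, zero_add]
    rfl
  · rw [add_zero]

private theorem mgo_zero (k F g : ℕ) (R : Multiset ℕ) (hR : R ≠ 0) : mgoD k R F g = 0 := by
  unfold mgoD
  rw [if_neg fun h => hR h.1]

/-- one term of the convolution -/
private theorem mgo_term (k l a b u v : ℕ) (Q : Multiset ℕ) (h : Q ≠ 0 ∨ u + v ≠ 0) :
    SYS.A.conv (fun R => muG (k ::ₘ R) a u) (fun R => muG (l ::ₘ R) b v) Q =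
      SYS.A.conv (fun R => muN k R a u) (fun R => muN l R b v) Q +
      (if u = 0 then W k a else 0) * muG (l ::ₘ Q) b v + (if v = 0 then W l b else 0) * muG (k ::ₘ Q) a u := by
  have e1 : (fun R => muG (k ::ₘ R) a u) = fun R => muN k R a u + mgoD k R a u :=
    funext fun R => mgo_split k R a u
  have e2 : (fun R => muG (l ::ₘ R) b v) = fun R => muN l R b v + mgoD l R b v :=
    funext fun R => mgo_split l R b v
  have c1 : SYS.A.conv (fun R => mgoD k R a u) (fun R => muG (l ::ₘ R) b v) Q =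
      (if u = 0 then W k a else 0) * muG (l ::ₘ Q) b v := by
    rw [conv_single (fun R => mgoD k R a u) _ (fun R hR => mgo_zero k a u R hR)]
    congr 1
    unfold mgoD
    simp
  have c2 : SYS.A.conv (fun R => mgoD l R b v) (fun R => muG (k ::ₘ R) a u) Q =
      (if v = 0 then W l b else 0) * muG (k ::ₘ Q) a u := by
    rw [conv_single (fun R => mgoD l R b v) _ (fun R hR => mgo_zero l b v R hR)]
    congr 1
    unfold mgoD
    simp
  have c3 : SYS.A.conv (fun R => mgoD l R b v) (fun R => mgoD k R a u) Q = 0 := by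
    rw [conv_single (fun R => mgoD l R b v) _ (fun R hR => mgo_zero l b v R hR)]
    rcases h with h | h
    · rw [mgo_zero k a u Q h, mul_zero]
    · by_cases hu : u = 0
      · have hv : v ≠ 0 := by omega
        have : mgoD l 0 b v = 0 := by
          unfold mgoD
          rw [if_neg fun h => hv h.2]
        rw [this, zero_mul]
      · have : mgoD k Q a u = 0 := by
          unfold mgoD
          rw [if_neg fun h => hu h.2]
        rw [this, mul_zero]
  have s1 : SYS.A.conv (fun R => muG (k ::ₘ R) a u) (fun R => muG (l ::ₘ R) b v) Q =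
      SYS.A.conv (fun R => muN k R a u) (fun R => muG (l ::ₘ R) b v) Q +
      SYS.A.conv (fun R => mgoD k R a u) (fun R => muG (l ::ₘ R) b v) Q := by
    rw [e1, SYS.A.conv_comm, SYS.A.conv_add_right, SYS.A.conv_comm _ (fun R => muN k R a u),
      SYS.A.conv_comm _ (fun R => mgoD k R a u)]
  have s2 : SYS.A.conv (fun R => muN k R a u) (fun R => muG (l ::ₘ R) b v) Q =
      SYS.A.conv (fun R => muN k R a u) (fun R => muN l R b v) Q +
      SYS.A.conv (fun R => mgoD l R b v) (fun R => muN k R a u) Q := by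
    rw [e2, SYS.A.conv_add_right, SYS.A.conv_comm _ (fun R => mgoD l R b v)]
  have s3 : SYS.A.conv (fun R => mgoD l R b v) (fun R => muG (k ::ₘ R) a u) Q =
      SYS.A.conv (fun R => mgoD l R b v) (fun R => muN k R a u) Q +
      SYS.A.conv (fun R => mgoD l R b v) (fun R => mgoD k R a u) Q := by
    rw [e1, SYS.A.conv_add_right]
  rw [c3, add_zero] at s3
  rw [s1, s2, ← s3, c1, c2]
  ring

private theorem mgo_z (g : ℕ) (c : ℝ) (f : ℕ → ℝ) :
    ∑ z ∈ antidiagonal g, (if z.1 = 0 then c else 0) * f z.2 = c * f g := by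
  rw [Finset.sum_eq_single (0, g)]
  · simp
  · intro z hz hne
    have h1 : z.1 ≠ 0 := by
      intro h0
      apply hne
      have := mem_antidiagonal.mp hz
      exact Prod.ext h0 (by simp only; omega)
    rw [if_neg h1, zero_mul]
  · intro h
    exact absurd (mem_antidiagonal.mpr (by simp)) h

private theorem mgo_z' (g : ℕ) (c : ℝ) (f : ℕ → ℝ) :
    ∑ z ∈ antidiagonal g, (if z.2 = 0 then c else 0) * f z.1 = c * f g := by
  rw [← mgo_z g c f, ← Finset.Nat.sum_antidiagonal_swap]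
  rfl

private theorem mgo_conv (m : ℕ) (Q : Multiset ℕ) (F g : ℕ) (h : Q ≠ 0 ∨ g ≠ 0) :
    ∑ x ∈ antidiagonal m, ∑ y ∈ antidiagonal F, ∑ z ∈ antidiagonal g,
      SYS.A.conv (fun R => muG (x.1 ::ₘ R) y.1 z.1) (fun R => muG (x.2 ::ₘ R) y.2 z.2) Q =
      SEP (m + 2) Q F g + 2 * ∑ k ∈ Finset.range m, ∑ a ∈ Finset.range (F + 1),
        W k a * muG ((m - k) ::ₘ Q) (F - a) g := by
  have h1 : ∑ x ∈ antidiagonal m, ∑ y ∈ antidiagonal F, ∑ z ∈ antidiagonal g,
      SYS.A.conv (fun R => muG (x.1 ::ₘ R) y.1 z.1) (fun R => muG (x.2 ::ₘ R) y.2 z.2) Q =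
      SEP (m + 2) Q F g + ∑ x ∈ antidiagonal m, ∑ y ∈ antidiagonal F, W x.1 y.1 * muG (x.2 ::ₘ Q) y.2 g +
        ∑ x ∈ antidiagonal m, ∑ y ∈ antidiagonal F, W x.2 y.2 * muG (x.1 ::ₘ Q) y.1 g := by
    unfold SEP
    rw [Nat.add_sub_cancel, ← Finset.sum_add_distrib, ← Finset.sum_add_distrib]
    refine Finset.sum_congr rfl fun x _ => ?_
    rw [← Finset.sum_add_distrib, ← Finset.sum_add_distrib]
    refine Finset.sum_congr rfl fun y _ => ?_
    rw [← mgo_z g (W x.1 y.1) (fun v => muG (x.2 ::ₘ Q) y.2 v),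
      ← mgo_z' g (W x.2 y.2) (fun u => muG (x.1 ::ₘ Q) y.1 u), ← Finset.sum_add_distrib,
      ← Finset.sum_add_distrib]
    refine Finset.sum_congr rfl fun z hz => ?_
    refine mgo_term x.1 x.2 y.1 y.2 z.1 z.2 Q ?_
    rw [mem_antidiagonal.mp hz]
    exact h
  have h2 : ∑ x ∈ antidiagonal m, ∑ y ∈ antidiagonal F, W x.2 y.2 * muG (x.1 ::ₘ Q) y.1 g =
      ∑ x ∈ antidiagonal m, ∑ y ∈ antidiagonal F, W x.1 y.1 * muG (x.2 ::ₘ Q) y.2 g := by
    rw [← Finset.Nat.sum_antidiagonal_swap]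
    refine Finset.sum_congr rfl fun x _ => ?_
    rw [← Finset.Nat.sum_antidiagonal_swap]
    rfl
  have h3 : ∑ x ∈ antidiagonal m, ∑ y ∈ antidiagonal F, W x.1 y.1 * muG (x.2 ::ₘ Q) y.2 g =
      ∑ k ∈ Finset.range m, ∑ a ∈ Finset.range (F + 1), W k a * muG ((m - k) ::ₘ Q) (F - a) g := by
    have h4 : ∀ x : ℕ × ℕ, ∑ y ∈ antidiagonal F, W x.1 y.1 * muG (x.2 ::ₘ Q) y.2 g =
        ∑ a ∈ Finset.range (F + 1), W x.1 a * muG (x.2 ::ₘ Q) (F - a) g := fun x =>
      Finset.Nat.sum_antidiagonal_eq_sum_range_succ (fun a b => W x.1 a * muG (x.2 ::ₘ Q) b g) F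
    rw [Finset.sum_congr rfl fun x _ => h4 x,
      Finset.Nat.sum_antidiagonal_eq_sum_range_succ
        (fun k l => ∑ a ∈ Finset.range (F + 1), W k a * muG (l ::ₘ Q) (F - a) g) m,
      Nat.succ_eq_add_one, Finset.sum_range_succ]
    have h5 : ∑ a ∈ Finset.range (F + 1), W m a * muG ((m - m) ::ₘ Q) (F - a) g = 0 := by
      refine Finset.sum_eq_zero fun a _ => ?_
      rw [Nat.sub_self, tutG_zero, if_neg, mul_zero]
      rintro ⟨a1, _, a3⟩
      rcases h with h | h
      · exact h a1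
      · exact h a3
    rw [h5, add_zero]
  rw [h1, h2, h3]
  ring

theorem tutO (p : ℕ) (Q : Multiset ℕ) (F g : ℕ) (hp : 2 ≤ p) (h : Q ≠ 0 ∨ g ≠ 0) :
    muG (p ::ₘ Q) F g = (if F = 0 then 0 else muG ((p + 1) ::ₘ Q) (F - 1) g) +
      2 * (∑ k ∈ Finset.range (p - 2), ∑ a ∈ Finset.range (F + 1),
        W k a * muG ((p - 2 - k) ::ₘ Q) (F - a) g) +
      (NS p Q F g + SEP p Q F g + MRG p Q F g) := by
  obtain ⟨m, rfl⟩ : ∃ m, p = m + 2 := ⟨p - 2, by omega⟩
  rw [tutG m Q F g, mgo_conv m Q F g h]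
  have h1 : (Q.map fun q : ℕ => (q : ℝ) * muG ((q + m) ::ₘ Q.erase q) F g).sum = MRG (m + 2) Q F g := by
    unfold MRG
    congr 1
  have h2 : (if g = 0 then (0 : ℝ) else ∑ x ∈ antidiagonal m, muG (x.1 ::ₘ x.2 ::ₘ Q) F (g - 1)) =
      NS (m + 2) Q F g := by
    unfold NS
    rw [Nat.add_sub_cancel]
  rw [h1, h2, Nat.add_sub_cancel]
  ring

/-- The same at genus `0` without other holes. -/
theorem tutW (m a : ℕ) : W (m + 2) a = (if a = 0 then 0 else W (m + 3) (a - 1)) +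
    ∑ x ∈ antidiagonal m, ∑ y ∈ antidiagonal a, W x.1 y.1 * W x.2 y.2 := by
  have h := tutG m 0 a 0
  have e : ∀ k : ℕ, (k ::ₘ (0 : Multiset ℕ)) = {k} := fun k => rfl
  simp only [Multiset.map_zero, Multiset.sum_zero, add_zero, if_true, Finset.Nat.antidiagonal_zero,
    Finset.sum_singleton, SYS.A.conv_zero, e] at h
  unfold W
  exact h

theorem tutW_one (a : ℕ) : W 1 a = if a = 0 then 0 else W 2 (a - 1) := by
  have h := tutG_one 0 a 0
  rw [Multiset.map_zero, Multiset.sum_zero, add_zero] at h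
  exact h

end SYS.Num
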