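import Pool.Agent.SYS.BD.Mg

/-!
# SYS-BD-MgT: Tutte's equation for `muG` (exact)

PROOF. Coefficient of `X ^ V` (`2 V + 4 g + 2 (#Q + 1) = 4 + F + (m + 2) + |Q|`; if there is no such `V` all terms vanish by `muG_not`) of `SYS.A.tutte_muP`, `muP_one`, `muP_zero`, `muP_two`, `muP_three`, cast to `ℝ`. New triangle: the same `V`, `g`. First sum: the same `V`, genus `g - 1`.
Convolution: `Polynomial.coeff_mul` gives pairs `V₁ + V₂ = V`; nonzero coefficients have genera `g₁`, `g₂` (`coeff_ne`) with `g₁ + g₂ = g`, and conversely; so the sum over `V₁ + V₂ = V` of products of coefficients is the sum over `g₁ + g₂ = g` of products of `muG`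
(for fixed splitting and fixed `y`; `Multiset` sum as a sum over the antidiagonal). Last sum: the same `V`, `g` (`(P.erase q).sum = P.sum - q` for `q ∈ P`).
-/

namespace SYS.Num

open Finset.HasAntidiagonal

/-- the coefficient of `X ^ V`, as a real number -/
private noncomputable def cV (V : ℕ) : Polynomial ℚ →+ ℝ :=
  (Rat.castHom ℝ).toAddMonoidHom.comp (Polynomial.lcoeff ℚ V).toAddMonoidHom

private theorem cV_apply (V : ℕ) (p : Polynomial ℚ) : cV V p = ((p.coeff V : ℚ) : ℝ) := rfl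

private theorem cV_C_mul (V : ℕ) (c : ℚ) (p : Polynomial ℚ) : cV V (Polynomial.C c * p) = (c : ℝ) * cV V p := by
  rw [cV_apply, cV_apply, Polynomial.coeff_C_mul]
  push_cast
  ring

private theorem cV_mul (V : ℕ) (p q : Polynomial ℚ) :
    cV V (p * q) = ∑ v ∈ antidiagonal V, cV v.1 p * cV v.2 q := by
  rw [cV_apply, Polynomial.coeff_mul]
  push_cast
  rfl

private theorem of_V {P : Multiset ℕ} {F g V : ℕ} (h : 2 * V + 4 * g + 2 * Multiset.card P = 4 + F + P.sum) :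
    muG P F g = cV V (SYS.A.muP P F) := muG_of h

private theorem ex_of_ne {P : Multiset ℕ} {F g : ℕ} (h : muG P F g ≠ 0) :
    ∃ V : ℕ, 2 * V + 4 * g + 2 * Multiset.card P = 4 + F + P.sum := by
  by_contra hc
  push Not at hc
  exact h (muG_not hc)

private theorem ex_of_cne {P : Multiset ℕ} {F V : ℕ} (h : cV V (SYS.A.muP P F) ≠ 0) :
    ∃ g : ℕ, 2 * V + 4 * g + 2 * Multiset.card P = 4 + F + P.sum := by
  have h1 : (SYS.A.muP P F).coeff V ≠ 0 := by
    intro h0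
    apply h
    rw [cV_apply, h0, Rat.cast_zero]
  obtain ⟨g, hg, _⟩ := coeff_ne h1
  exact ⟨g, hg⟩

private theorem prodG {P1 P2 : Multiset ℕ} {F1 F2 g V : ℕ}
    (h : 2 * V + 4 * g + 2 * (Multiset.card P1 + Multiset.card P2) = 8 + (F1 + P1.sum) + (F2 + P2.sum)) :
    cV V (SYS.A.muP P1 F1 * SYS.A.muP P2 F2) = ∑ z ∈ antidiagonal g, muG P1 F1 z.1 * muG P2 F2 z.2 := by
  rw [cV_mul]
  refine Finset.sum_bij_ne_zero (fun v _ _ => ((4 + F1 + P1.sum - 2 * Multiset.card P1 - 2 * v.1) / 4,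
    (4 + F2 + P2.sum - 2 * Multiset.card P2 - 2 * v.2) / 4)) ?_ ?_ ?_ ?_
  · intro v hv hne
    have hv' := Finset.HasAntidiagonal.mem_antidiagonal.1 hv
    obtain ⟨g1, hg1⟩ := ex_of_cne (left_ne_zero_of_mul hne)
    obtain ⟨g2, hg2⟩ := ex_of_cne (right_ne_zero_of_mul hne)
    refine Finset.HasAntidiagonal.mem_antidiagonal.2 ?_
    show (4 + F1 + P1.sum - 2 * Multiset.card P1 - 2 * v.1) / 4 +
      (4 + F2 + P2.sum - 2 * Multiset.card P2 - 2 * v.2) / 4 = g
    omega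
  · intro v hv hne v' hv' hne' hvv
    obtain ⟨g1, hg1⟩ := ex_of_cne (left_ne_zero_of_mul hne)
    obtain ⟨g2, hg2⟩ := ex_of_cne (right_ne_zero_of_mul hne)
    obtain ⟨g1', hg1'⟩ := ex_of_cne (left_ne_zero_of_mul hne')
    obtain ⟨g2', hg2'⟩ := ex_of_cne (right_ne_zero_of_mul hne')
    rw [Prod.mk.injEq] at hvv
    obtain ⟨a1, a2⟩ := hvv
    refine Prod.ext ?_ ?_
    · omega
    · omega
  · intro z hz hne
    have hz' := Finset.HasAntidiagonal.mem_antidiagonal.1 hz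
    obtain ⟨V1, hV1⟩ := ex_of_ne (left_ne_zero_of_mul hne)
    obtain ⟨V2, hV2⟩ := ex_of_ne (right_ne_zero_of_mul hne)
    refine ⟨(V1, V2), Finset.HasAntidiagonal.mem_antidiagonal.2 (by show V1 + V2 = V; omega), ?_, ?_⟩
    · show cV V1 (SYS.A.muP P1 F1) * cV V2 (SYS.A.muP P2 F2) ≠ 0
      rw [← of_V hV1, ← of_V hV2]
      exact hne
    · refine Prod.ext ?_ ?_
      · show (4 + F1 + P1.sum - 2 * Multiset.card P1 - 2 * V1) / 4 = z.1
        omega
      · show (4 + F2 + P2.sum - 2 * Multiset.card P2 - 2 * V2) / 4 = z.2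
        omega
  · intro v hv hne
    obtain ⟨g1, hg1⟩ := ex_of_cne (left_ne_zero_of_mul hne)
    obtain ⟨g2, hg2⟩ := ex_of_cne (right_ne_zero_of_mul hne)
    have e1 : (4 + F1 + P1.sum - 2 * Multiset.card P1 - 2 * v.1) / 4 = g1 := by omega
    have e2 : (4 + F2 + P2.sum - 2 * Multiset.card P2 - 2 * v.2) / 4 = g2 := by omega
    show cV v.1 (SYS.A.muP P1 F1) * cV v.2 (SYS.A.muP P2 F2) =
      muG P1 F1 ((4 + F1 + P1.sum - 2 * Multiset.card P1 - 2 * v.1) / 4) *
        muG P2 F2 ((4 + F2 + P2.sum - 2 * Multiset.card P2 - 2 * v.2) / 4)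
    rw [e1, e2, of_V hg1, of_V hg2]

private theorem prodG_not {P1 P2 : Multiset ℕ} {F1 F2 g : ℕ}
    (h : ∀ V : ℕ, 2 * V + 4 * g + 2 * (Multiset.card P1 + Multiset.card P2) ≠
      8 + (F1 + P1.sum) + (F2 + P2.sum)) {z : ℕ × ℕ} (hz : z ∈ antidiagonal g) :
    muG P1 F1 z.1 * muG P2 F2 z.2 = 0 := by
  by_contra hne
  have hz' := Finset.HasAntidiagonal.mem_antidiagonal.1 hz
  obtain ⟨V1, hV1⟩ := ex_of_ne (left_ne_zero_of_mul hne)
  obtain ⟨V2, hV2⟩ := ex_of_ne (right_ne_zero_of_mul hne)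
  exact h (V1 + V2) (by omega)

private theorem er {Q : Multiset ℕ} {q : ℕ} (hq : q ∈ Q) :
    Multiset.card (Q.erase q) + 1 = Multiset.card Q ∧ q + (Q.erase q).sum = Q.sum := by
  have h1 := Multiset.cons_erase hq
  constructor
  · conv_rhs => rw [← h1]
    rw [Multiset.card_cons]
  · conv_rhs => rw [← h1]
    rw [Multiset.sum_cons]

private theorem cs (k : ℕ) (Q : Multiset ℕ) :
    Multiset.card (k ::ₘ Q) = Multiset.card Q + 1 ∧ (k ::ₘ Q).sum = k + Q.sum :=
  ⟨Multiset.card_cons _ _, Multiset.sum_cons _ _⟩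

/-- the sum over `Q` -/
private theorem cV_last {h : ℕ → ℕ} {Q : Multiset ℕ} {F g V : ℕ}
    (hE : ∀ q ∈ Q, q ≠ 0 → 2 * V + 4 * g + 2 * Multiset.card Q = 4 + F + (h q + (Q.erase q).sum)) :
    cV V (Q.map fun q : ℕ => Polynomial.C (q : ℚ) * SYS.A.muP (h q ::ₘ Q.erase q) F).sum =
      (Q.map fun q : ℕ => (q : ℝ) * muG (h q ::ₘ Q.erase q) F g).sum := by
  rw [map_multiset_sum, Multiset.map_map]
  congr 1
  refine Multiset.map_congr rfl fun q hq => ?_
  rw [Function.comp_apply, cV_C_mul]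
  by_cases h0 : q = 0
  · rw [h0]
    simp
  · obtain ⟨e1, e2⟩ := er hq
    obtain ⟨e3, e4⟩ := cs (h q) (Q.erase q)
    have e5 := hE q hq h0
    rw [of_V (V := V) (by rw [e3, e4]; omega)]
    push_cast
    rfl

private theorem last_zero {h : ℕ → ℕ} {Q : Multiset ℕ} {F g : ℕ}
    (hE : ∀ q ∈ Q, q ≠ 0 → ∀ V : ℕ, 2 * V + 4 * g + 2 * Multiset.card Q ≠ 4 + F + (h q + (Q.erase q).sum)) :
    (Q.map fun q : ℕ => (q : ℝ) * muG (h q ::ₘ Q.erase q) F g).sum = 0 := by
  refine Multiset.sum_eq_zero fun z hz => ?_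
  obtain ⟨q, hq, rfl⟩ := Multiset.mem_map.1 hz
  by_cases h0 : q = 0
  · rw [h0]
    simp
  · obtain ⟨e1, e2⟩ := er hq
    obtain ⟨e3, e4⟩ := cs (h q) (Q.erase q)
    rw [muG_not (fun V => by
      have e5 := hE q hq h0 V
      rw [e3, e4]
      omega), mul_zero]

theorem tutG (m : ℕ) (Q : Multiset ℕ) (F g : ℕ) : muG ((m + 2) ::ₘ Q) F g =
    (if F = 0 then 0 else muG ((m + 3) ::ₘ Q) (F - 1) g) +
    (if g = 0 then 0 else ∑ x ∈ antidiagonal m, muG (x.1 ::ₘ x.2 ::ₘ Q) F (g - 1)) +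
    (∑ x ∈ antidiagonal m, ∑ y ∈ antidiagonal F, ∑ z ∈ antidiagonal g,
      SYS.A.conv (fun R => muG (x.1 ::ₘ R) y.1 z.1) (fun R => muG (x.2 ::ₘ R) y.2 z.2) Q) +
    (Q.map fun q : ℕ => (q : ℝ) * muG ((q + m) ::ₘ Q.erase q) F g).sum := by
  obtain ⟨c2, s2⟩ := cs (m + 2) Q
  obtain ⟨c3, s3⟩ := cs (m + 3) Q
  -- exchange of the sums in the convolution
  have hconv : ∀ x y : ℕ × ℕ, ∑ z ∈ antidiagonal g,
      SYS.A.conv (fun R => muG (x.1 ::ₘ R) y.1 z.1) (fun R => muG (x.2 ::ₘ R) y.2 z.2) Q =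
      (Q.antidiagonal.map fun w => ∑ z ∈ antidiagonal g,
        muG (x.1 ::ₘ w.1) y.1 z.1 * muG (x.2 ::ₘ w.2) y.2 z.2).sum := by
    intro x y
    unfold SYS.A.conv
    exact Multiset.sum_map_sum_map _ _
  by_cases hV : ∃ V : ℕ, 2 * V + 4 * g + 2 * (Multiset.card Q + 1) = 4 + F + (m + 2 + Q.sum)
  · obtain ⟨V, hV⟩ := hV
    rw [of_V (V := V) (by rw [c2, s2]; omega), SYS.A.tutte_muP, map_add, map_add, map_sum,
      Finset.sum_congr rfl fun x _ => map_add (cV V) _ _, Finset.sum_add_distrib]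
    have t1 : cV V (if F = 0 then 0 else SYS.A.muP ((m + 3) ::ₘ Q) (F - 1)) =
        if F = 0 then 0 else muG ((m + 3) ::ₘ Q) (F - 1) g := by
      by_cases hF : F = 0
      · rw [if_pos hF, if_pos hF, map_zero]
      · rw [if_neg hF, if_neg hF, of_V (V := V) (by rw [c3, s3]; omega)]
    have t2 : ∑ x ∈ antidiagonal m, cV V (SYS.A.muP (x.1 ::ₘ x.2 ::ₘ Q) F) =
        if g = 0 then 0 else ∑ x ∈ antidiagonal m, muG (x.1 ::ₘ x.2 ::ₘ Q) F (g - 1) := by
      by_cases hg : g = 0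
      · rw [if_pos hg]
        refine Finset.sum_eq_zero fun x hx => ?_
        have hx' := Finset.HasAntidiagonal.mem_antidiagonal.1 hx
        by_contra hne
        obtain ⟨g', hg'⟩ := ex_of_cne hne
        obtain ⟨a1, a2⟩ := cs x.1 (x.2 ::ₘ Q)
        obtain ⟨a3, a4⟩ := cs x.2 Q
        rw [a1, a2, a3, a4] at hg'
        omega
      · rw [if_neg hg]
        refine Finset.sum_congr rfl fun x hx => ?_
        have hx' := Finset.HasAntidiagonal.mem_antidiagonal.1 hx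
        obtain ⟨a1, a2⟩ := cs x.1 (x.2 ::ₘ Q)
        obtain ⟨a3, a4⟩ := cs x.2 Q
        rw [of_V (V := V) (by rw [a1, a2, a3, a4]; omega)]
    have t3 : ∑ x ∈ antidiagonal m, cV V (∑ y ∈ antidiagonal F,
        SYS.A.conv (fun Q => SYS.A.muP (x.1 ::ₘ Q) y.1) (fun Q => SYS.A.muP (x.2 ::ₘ Q) y.2) Q) =
        ∑ x ∈ antidiagonal m, ∑ y ∈ antidiagonal F, ∑ z ∈ antidiagonal g,
          SYS.A.conv (fun R => muG (x.1 ::ₘ R) y.1 z.1) (fun R => muG (x.2 ::ₘ R) y.2 z.2) Q := by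
      refine Finset.sum_congr rfl fun x hx => ?_
      rw [map_sum]
      refine Finset.sum_congr rfl fun y hy => ?_
      rw [hconv x y]
      unfold SYS.A.conv
      rw [map_multiset_sum, Multiset.map_map]
      congr 1
      refine Multiset.map_congr rfl fun w hw => ?_
      have hx' := Finset.HasAntidiagonal.mem_antidiagonal.1 hx
      have hy' := Finset.HasAntidiagonal.mem_antidiagonal.1 hy
      have hw' := Multiset.mem_antidiagonal.1 hw
      have hwc : Multiset.card w.1 + Multiset.card w.2 = Multiset.card Q := by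
        rw [← hw', Multiset.card_add]
      have hws : w.1.sum + w.2.sum = Q.sum := by
        rw [← hw', Multiset.sum_add]
      obtain ⟨a1, a2⟩ := cs x.1 w.1
      obtain ⟨a3, a4⟩ := cs x.2 w.2
      exact prodG (by rw [a1, a2, a3, a4]; omega)
    have t4 := cV_last (h := fun q => q + m) (Q := Q) (F := F) (g := g) (V := V) (fun q hq _ => by
      obtain ⟨e1, e2⟩ := er hq
      show 2 * V + 4 * g + 2 * Multiset.card Q = 4 + F + (q + m + (Q.erase q).sum)
      omega)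
    rw [t1, t2, t3, t4]
    ring
  · have hV' : ∀ V : ℕ, 2 * V + 4 * g + 2 * (Multiset.card Q + 1) ≠ 4 + F + (m + 2 + Q.sum) :=
      fun V h => hV ⟨V, h⟩
    have t0 : muG ((m + 2) ::ₘ Q) F g = 0 := muG_not fun V => by
      rw [c2, s2]
      exact hV' V
    have t1 : (if F = 0 then 0 else muG ((m + 3) ::ₘ Q) (F - 1) g) = 0 := by
      by_cases hF : F = 0
      · rw [if_pos hF]
      · rw [if_neg hF]
        refine muG_not fun V => ?_
        have := hV' V
        rw [c3, s3]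
        omega
    have t2 : (if g = 0 then 0 else ∑ x ∈ antidiagonal m, muG (x.1 ::ₘ x.2 ::ₘ Q) F (g - 1)) = 0 := by
      by_cases hg : g = 0
      · rw [if_pos hg]
      · rw [if_neg hg]
        refine Finset.sum_eq_zero fun x hx => muG_not fun V => ?_
        have hx' := Finset.HasAntidiagonal.mem_antidiagonal.1 hx
        obtain ⟨a1, a2⟩ := cs x.1 (x.2 ::ₘ Q)
        obtain ⟨a3, a4⟩ := cs x.2 Q
        have := hV' V
        rw [a1, a2, a3, a4]
        omega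
    have t3 : ∑ x ∈ antidiagonal m, ∑ y ∈ antidiagonal F, ∑ z ∈ antidiagonal g,
        SYS.A.conv (fun R => muG (x.1 ::ₘ R) y.1 z.1) (fun R => muG (x.2 ::ₘ R) y.2 z.2) Q = 0 := by
      refine Finset.sum_eq_zero fun x hx => Finset.sum_eq_zero fun y hy => ?_
      rw [hconv x y]
      refine Multiset.sum_eq_zero fun u hu => ?_
      obtain ⟨w, hw, rfl⟩ := Multiset.mem_map.1 hu
      refine Finset.sum_eq_zero fun z hz => ?_
      have hx' := Finset.HasAntidiagonal.mem_antidiagonal.1 hx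
      have hy' := Finset.HasAntidiagonal.mem_antidiagonal.1 hy
      have hw' := Multiset.mem_antidiagonal.1 hw
      have hwc : Multiset.card w.1 + Multiset.card w.2 = Multiset.card Q := by
        rw [← hw', Multiset.card_add]
      have hws : w.1.sum + w.2.sum = Q.sum := by
        rw [← hw', Multiset.sum_add]
      obtain ⟨a1, a2⟩ := cs x.1 w.1
      obtain ⟨a3, a4⟩ := cs x.2 w.2
      exact prodG_not (fun V => by
        have := hV' V
        rw [a1, a2, a3, a4]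
        omega) hz
    have t4 := last_zero (h := fun q => q + m) (Q := Q) (F := F) (g := g) (fun q hq _ V => by
      obtain ⟨e1, e2⟩ := er hq
      have := hV' V
      show 2 * V + 4 * g + 2 * Multiset.card Q ≠ 4 + F + (q + m + (Q.erase q).sum)
      omega)
    rw [t0, t1, t2, t3, t4]
    ring

theorem tutG_one (Q : Multiset ℕ) (F g : ℕ) : muG (1 ::ₘ Q) F g =
    (if F = 0 then 0 else muG (2 ::ₘ Q) (F - 1) g) +
    (Q.map fun q : ℕ => (q : ℝ) * muG ((q - 1) ::ₘ Q.erase q) F g).sum := by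
  obtain ⟨c2, s2⟩ := cs 1 Q
  obtain ⟨c3, s3⟩ := cs 2 Q
  by_cases hV : ∃ V : ℕ, 2 * V + 4 * g + 2 * (Multiset.card Q + 1) = 4 + F + (1 + Q.sum)
  · obtain ⟨V, hV⟩ := hV
    rw [of_V (V := V) (by rw [c2, s2]; omega), SYS.A.muP_one, map_add]
    have t1 : cV V (if F = 0 then 0 else SYS.A.muP (2 ::ₘ Q) (F - 1)) =
        if F = 0 then 0 else muG (2 ::ₘ Q) (F - 1) g := by
      by_cases hF : F = 0
      · rw [if_pos hF, if_pos hF, map_zero]
      · rw [if_neg hF, if_neg hF, of_V (V := V) (by rw [c3, s3]; omega)]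
    have t4 := cV_last (h := fun q => q - 1) (Q := Q) (F := F) (g := g) (V := V) (fun q hq h0 => by
      obtain ⟨e1, e2⟩ := er hq
      show 2 * V + 4 * g + 2 * Multiset.card Q = 4 + F + (q - 1 + (Q.erase q).sum)
      omega)
    rw [t1, t4]
  · have hV' : ∀ V : ℕ, 2 * V + 4 * g + 2 * (Multiset.card Q + 1) ≠ 4 + F + (1 + Q.sum) :=
      fun V h => hV ⟨V, h⟩
    have t0 : muG (1 ::ₘ Q) F g = 0 := muG_not fun V => by
      rw [c2, s2]
      exact hV' V
    have t1 : (if F = 0 then 0 else muG (2 ::ₘ Q) (F - 1) g) = 0 := by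
      by_cases hF : F = 0
      · rw [if_pos hF]
      · rw [if_neg hF]
        refine muG_not fun V => ?_
        have := hV' V
        rw [c3, s3]
        omega
    have t4 := last_zero (h := fun q => q - 1) (Q := Q) (F := F) (g := g) (fun q hq h0 V => by
      obtain ⟨e1, e2⟩ := er hq
      have := hV' V
      show 2 * V + 4 * g + 2 * Multiset.card Q ≠ 4 + F + (q - 1 + (Q.erase q).sum)
      omega)
    rw [t0, t1, t4, add_zero]

theorem tutG_zero (Q : Multiset ℕ) (F g : ℕ) :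
    muG (0 ::ₘ Q) F g = if Q = 0 ∧ F = 0 ∧ g = 0 then 1 else 0 := by
  obtain ⟨c2, s2⟩ := cs 0 Q
  by_cases h : Q = 0 ∧ F = 0 ∧ g = 0
  · rw [if_pos h]
    obtain ⟨rfl, rfl, rfl⟩ := h
    rw [of_V (V := 1) (by rw [c2, s2]; rfl), SYS.A.muP_zero, if_pos ⟨rfl, rfl⟩, cV_apply,
      Polynomial.coeff_X_one, Rat.cast_one]
  · rw [if_neg h]
    by_contra hne
    obtain ⟨V, hV⟩ := ex_of_ne hne
    rw [of_V hV, SYS.A.muP_zero] at hne
    by_cases h2 : Q = 0 ∧ F = 0
    · obtain ⟨rfl, rfl⟩ := h2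
      rw [c2, s2] at hV
      have h3 : Multiset.card (0 : Multiset ℕ) = 0 := rfl
      have h4 : (0 : Multiset ℕ).sum = 0 := rfl
      rw [h3, h4] at hV
      exact h ⟨rfl, rfl, by omega⟩
    · rw [if_neg h2, map_zero] at hne
      exact hne rfl

theorem muG_two (Q : Multiset ℕ) (F g : ℕ) : muG (2 ::ₘ Q) F g =
    (3 * F + Q.sum : ℕ) * muG Q F g + if Q = 0 ∧ F = 0 ∧ g = 0 then 1 else 0 := by
  obtain ⟨c2, s2⟩ := cs 2 Q
  by_cases hV : ∃ V : ℕ, 2 * V + 4 * g + 2 * Multiset.card Q = 4 + F + Q.sum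
  · obtain ⟨V, hV⟩ := hV
    rw [of_V (V := V) (by rw [c2, s2]; omega), of_V hV, SYS.A.muP_two, map_add, cV_C_mul]
    congr 1
    · have e : ((3 : ℚ) * F + (Q.sum : ℚ)) = ((3 * F + Q.sum : ℕ) : ℚ) := by
        rw [Nat.cast_add, Nat.cast_mul]
        rfl
      rw [e, Rat.cast_natCast]
    · by_cases h2 : Q = 0 ∧ F = 0
      · rw [if_pos h2, cV_apply, Polynomial.coeff_X_pow]
        obtain ⟨rfl, rfl⟩ := h2
        have h3 : Multiset.card (0 : Multiset ℕ) = 0 := rfl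
        have h4 : (0 : Multiset ℕ).sum = 0 := rfl
        rw [h3, h4] at hV
        by_cases hg : g = 0
        · rw [if_pos (by omega), if_pos ⟨rfl, rfl, hg⟩, Rat.cast_one]
        · rw [if_neg (by omega), if_neg (fun h => hg h.2.2), Rat.cast_zero]
      · rw [if_neg h2, map_zero, if_neg (fun h => h2 ⟨h.1, h.2.1⟩)]
  · have hV' : ∀ V : ℕ, 2 * V + 4 * g + 2 * Multiset.card Q ≠ 4 + F + Q.sum := fun V h => hV ⟨V, h⟩
    rw [muG_not (fun V => by have := hV' V; rw [c2, s2]; omega), muG_not hV', mul_zero, zero_add, if_neg]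
    rintro ⟨rfl, rfl, rfl⟩
    exact hV' 2 rfl

theorem muG_three (Q : Multiset ℕ) (F g : ℕ) :
    muG (3 ::ₘ Q) F g = 3 * (F + 1) * muG Q (F + 1) g := by
  obtain ⟨c2, s2⟩ := cs 3 Q
  by_cases hV : ∃ V : ℕ, 2 * V + 4 * g + 2 * Multiset.card Q = 4 + (F + 1) + Q.sum
  · obtain ⟨V, hV⟩ := hV
    rw [of_V (V := V) (by rw [c2, s2]; omega), of_V hV, SYS.A.muP_three, cV_C_mul]
    push_cast
    ring
  · have hV' : ∀ V : ℕ, 2 * V + 4 * g + 2 * Multiset.card Q ≠ 4 + (F + 1) + Q.sum := fun V h => hV ⟨V, h⟩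
    rw [muG_not (fun V => by have := hV' V; rw [c2, s2]; omega), muG_not hV', mul_zero]

end SYS.Num
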